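import Pool.Agent.U207.QH.Crv
import Pool.Agent.U207.QK.Gd
import Pool.Agent.N254.SQ.Red
import Pool.Agent.N254.SQ.Hform
import Pool.Agent.N254.SQ.Hineq
import Pool.Agent.N254.SQ.Qimp

/-!
Project QH (helper207), part C: the degrees of the curves in the covers.
-/

set_option autoImplicit false

namespace Pool.Agent.U207.QH

open MvPolynomial FF
open Pool.Agent.W603.LV (hgt canDeg)
open Pool.Agent.W603.PV (pht)
open Pool.Agent.N254.SQ (Mon ver IsForm)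
open Pool.Agent.U207.QC (hI xI idx_cases pf GoodC coverEqs)
open Pool.Agent.U207.QK (Cv coverForm base_ne aeval_cover)

/-- the degrees of the curves in the cover which do not lie over `v(F = 0)` -/
theorem cv_alg {k : Type} [Field k] [IsAlgClosed k] [CharZero k] {n N d c : ℕ}
    {m : Fin (N + 1) → Fin (n + 1) → ℕ} {κ : Type} {F : κ → MvPolynomial (Fin (n + 1)) k}
    {P ℓ : Fin c → MvPolynomial (Fin (N + 1)) k} (h : Cv n N d c m F P ℓ) :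
    ∃ A : ℕ, ∀ (E : Type) [Field E] [Algebra k E] [IsFF k E] (y : Fin (N + c + 1) → E), y ≠ 0 →
      (∀ i, aeval y (coverForm P i) = 0) → pht k y ≤ A * max (canDeg k E) 0 ∨
        ∃ (x : Fin (n + 1) → E) (c₀ : E), x ≠ 0 ∧ c₀ ≠ 0 ∧ (∀ i, aeval x (F i) = 0) ∧
          y ∘ hI N c = c₀ • ver m x := by
  obtain ⟨s, B, κ', M, Z, a, ha, hZ, h1, h2, h3, h4, h5, hP, hsub, hcone⟩ := h.ex
  obtain ⟨A, hA⟩ := height_or (k := k) hZ h1 h2
  refine ⟨(N + c + 1) * A, fun E _ _ _ y hy hcov => ?_⟩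
  have hh : y ∘ hI N c ≠ 0 := base_ne h.homP hy hcov
  have hx : ∀ i, (y ∘ xI N c) i ^ 2 = aeval (y ∘ hI N c) (pf B κ' Z (a i)) := by
    intro i
    have h1 := hcov i
    rw [aeval_cover, sub_eq_zero, hP i] at h1
    exact h1
  rcases hA c a ha (by omega) E (y ∘ hI N c) (y ∘ xI N c) hh hx with h6 | ⟨j0, hj0, h6, h7⟩
  · exact Or.inr (hcone E _ hh h6)
  · left
    have h8 : y (hI N c j0) ≠ 0 := hj0
    refine (Pool.Agent.W603.PV.pht_le (k := k) y h8).trans ?_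
    have h9 : ∀ l, hgt k (y l / y (hI N c j0)) ≤ A * max (canDeg k E) 0 := by
      intro l
      rcases idx_cases l with ⟨j, rfl⟩ | ⟨i, rfl⟩
      · exact h6 j
      · exact h7 i
    refine (Finset.sum_le_sum fun l _ => h9 l).trans ?_
    rw [Finset.sum_const, Finset.card_univ, Fintype.card_fin, nsmul_eq_mul]
    push_cast
    rw [mul_assoc]

/-- the control of the algebraic curves in the cover -/
def AlgC (n N c : ℕ) (m : Fin (N + 1) → Fin (n + 1) → ℕ) (S : Set (MvPolynomial (Fin (n + 1)) ℂ))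
    (P : Fin c → MvPolynomial (Fin (N + 1)) ℂ) : Prop :=
  ∃ A : ℕ, ∀ (E : Type) [Field E] [Algebra ℂ E] [IsFF ℂ E] (y : Fin (N + c + 1) → E), y ≠ 0 →
    (∀ p ∈ coverEqs P, aeval y p = 0) → pht ℂ y ≤ A * max (canDeg ℂ E) 0 ∨
      ∃ (x : Fin (n + 1) → E) (c₀ : E), x ≠ 0 ∧ c₀ ≠ 0 ∧ (∀ p ∈ S, aeval x p = 0) ∧
        y ∘ hI N c = c₀ • ver m x

/-- covers with control of discs, subvarieties and algebraic curves -/
structure GoodA (n N d c : ℕ) (m : Fin (N + 1) → Fin (n + 1) → ℕ)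
    (S : Set (MvPolynomial (Fin (n + 1)) ℂ)) (P ℓ : Fin c → MvPolynomial (Fin (N + 1)) ℂ) :
    Prop where
  toC : GoodC n N d c m S P ℓ
  alg : AlgC n N c m S P

/-- equations with the same zeros -/
theorem GoodC.congr {n N d c : ℕ} {m : Fin (N + 1) → Fin (n + 1) → ℕ}
    {S T : Set (MvPolynomial (Fin (n + 1)) ℂ)} {P ℓ : Fin c → MvPolynomial (Fin (N + 1)) ℂ}
    (h : GoodC n N d c m T P ℓ) (hS : ∀ p ∈ S, ∃ e ≤ d, p.IsHomogeneous e)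
    (hTS : ∀ (Ω : Type) [Field Ω] [Algebra ℂ Ω] (x : Fin (n + 1) → Ω),
      (∀ p ∈ T, aeval x p = 0) ↔ ∀ p ∈ S, aeval x p = 0) : GoodC n N d c m S P ℓ := by
  have hTSe : ∀ x : Fin (n + 1) → ℂ, (∀ p ∈ T, eval x p = 0) ↔ ∀ p ∈ S, eval x p = 0 :=
    fun x => hTS ℂ x
  obtain ⟨s, Z, hZ, hZ1, hZ2⟩ := h.cone
  refine ⟨h.hn, h.hd, h.mon, h.hN, hS, h.homP, h.homL, ?_, ⟨s, Z, hZ, ?_, ?_⟩, ?_, ?_, ?_⟩
  · intro L _ _ x hx
    exact h.sub L x ((hTS L x).2 hx)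
  · intro L _ _ x hx
    exact hZ1 L x ((hTS L x).2 hx)
  · intro L _ _ y hy hyt
    obtain ⟨x, c₀, hx, hc₀, hxS, hyx⟩ := hZ2 L y hy hyt
    exact ⟨x, c₀, hx, hc₀, (hTS L x).1 hxS, hyx⟩
  · intro L _ _ w y hw hy
    rcases h.special L w y hw hy with h1 | ⟨x, c₀, hx, hc₀, hxS, hyx⟩
    · exact Or.inl h1
    · exact Or.inr ⟨x, c₀, hx, hc₀, (hTS L x).1 hxS, hyx⟩
  · have := h.discs
    simpa only [hTSe] using this
  · have := h.curves
    simpa only [hTSe] using this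

theorem AlgC.congr {n N c : ℕ} {m : Fin (N + 1) → Fin (n + 1) → ℕ}
    {S T : Set (MvPolynomial (Fin (n + 1)) ℂ)} {P : Fin c → MvPolynomial (Fin (N + 1)) ℂ}
    (h : AlgC n N c m T P)
    (hTS : ∀ (Ω : Type) [Field Ω] [Algebra ℂ Ω] (x : Fin (n + 1) → Ω),
      (∀ p ∈ T, aeval x p = 0) ↔ ∀ p ∈ S, aeval x p = 0) : AlgC n N c m S P := by
  obtain ⟨A, hA⟩ := h
  refine ⟨A, fun E _ _ _ y hy hyP => ?_⟩
  rcases hA E y hy hyP with h1 | ⟨x, c₀, hx, hc₀, hxS, hyx⟩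
  · exact Or.inl h1
  · exact Or.inr ⟨x, c₀, hx, hc₀, (hTS E x).1 hxS, hyx⟩

/-- **Existence of the cover.** -/
theorem exists_coverA {n N d : ℕ} {m : Fin (N + 1) → Fin (n + 1) → ℕ} (hn : 1 ≤ n) (hd : 3 ≤ d)
    (hm : Mon n N d m) (hN : 2 * n < N) (S : Set (MvPolynomial (Fin (n + 1)) ℂ))
    (hS : ∀ p ∈ S, ∃ e ≤ d, p.IsHomogeneous e) (c : ℕ)
    (hc : Pool.Agent.U207.QC.cN N ≤ c) :
    ∃ P ℓ : Fin c → MvPolynomial (Fin (N + 1)) ℂ, Pool.Agent.U207.QC.SmoothCover P ∧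
      GoodA n N d c m S P ℓ := by
  obtain ⟨T, hT, hTS⟩ := Pool.Agent.N254.SQ.reduce S
  obtain ⟨P, ℓ, h⟩ := Pool.Agent.U207.QK.exists_cvK (K := ℂ) hn hd hm hN
    (κ := {p // p ∈ T}) (F := fun p => p.1) (fun p => hS p.1 (hT p.2)) c hc
  have hsame : ∀ (Ω : Type) [Field Ω] [Algebra ℂ Ω] (x : Fin (n + 1) → Ω),
      (∀ p ∈ Set.range (fun p : {p // p ∈ T} => p.1), aeval x p = 0) ↔
        ∀ p ∈ S, aeval x p = 0 := by
    intro Ω _ _ x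
    constructor
    · intro hx p hp
      have h1 := hTS Ω (algebraMap ℂ Ω) x (fun q hq => by
        rw [eval_map]
        exact hx q ⟨⟨q, hq⟩, rfl⟩) p hp
      rwa [eval_map] at h1
    · rintro hx _ ⟨⟨p, hp⟩, rfl⟩
      exact hx p (hT hp)
  obtain ⟨hsm, hg⟩ := h.goodC
  refine ⟨P, ℓ, hsm, GoodC.congr hg hS hsame, AlgC.congr ?_ hsame⟩
  obtain ⟨A, hA⟩ := cv_alg h
  refine ⟨A, fun E _ _ _ y hy hyP => ?_⟩
  rcases hA E y hy (fun i => hyP _ ⟨i, rfl⟩) with h1 | ⟨x, c₀, hx, hc₀, hxS, hyx⟩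
  · exact Or.inl h1
  · refine Or.inr ⟨x, c₀, hx, hc₀, ?_, hyx⟩
    rintro _ ⟨p, rfl⟩
    exact hxS p

end Pool.Agent.U207.QH
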