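import Pool.Agent.U207.QH.Ptd
import Pool.Agent.W602.RG.TB

/-!
Project QH (helper207), part H: bend and break through the point; pointed maps off the sheets.
-/

set_option autoImplicit false

namespace Pool.Agent.U207.QH

open MvPolynomial FF
open Pool.Agent.W603.LV
open Pool.Agent.W603.PV (pht pord)
open Pool.Agent.W602.RG (HasValue)
open Pool.Agent.N254.SQ (IsForm Mon ver bend_scale ptd_const ptd_hv ptd_ne ptd_near ptd_scale)
open Pool.Agent.U207.QC (hI xI idx_cases coverForm coverEqs Signs el el_h el_x el_hI GoodC)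
open scoped LinearAlgebra.Projectivization

/-- bend and break: the rational curve passes through the point (the proof is that of
`N254.SQ.t_bend`, with the last part of `TH152.BB.bb_val`) -/
theorem bend_at {n : ℕ} {S : Set (MvPolynomial (Fin (n + 1)) ℂ)} (hS : ∀ p ∈ S, IsForm p)
    {E : Type} [Field E] [Algebra ℂ E] [IsFF ℂ E] (c : Place ℂ E) {x : Fin (n + 1) → ℂ} (B : ℤ)
    (hx : x ≠ 0) (hinf : {φ : ℙ E (Fin (n + 1) → E) | ∃ (f : Fin (n + 1) → E) (hf : f ≠ 0),
        (∀ p ∈ S, aeval f p = 0) ∧ HasValue c x f ∧ pht ℂ f ≤ B ∧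
        φ = Projectivization.mk E f hf}.Infinite) :
    ∃ y : Fin (n + 1) → RatFunc ℂ, y ≠ 0 ∧ (∀ p ∈ S, aeval y p = 0) ∧
      (¬ ∃ (c : RatFunc ℂ) (z : Fin (n + 1) → ℂ),
        y = fun j => c * algebraMap ℂ (RatFunc ℂ) (z j)) ∧
      ∀ F, IsForm F → aeval y F = 0 → eval x F = 0 := by
  classical
  obtain ⟨j0, hj0⟩ := Function.ne_iff.1 hx
  have hj0 : x j0 ≠ 0 := hj0
  set M : Set (Fin (n + 1) → E) := {f | f j0 = 1 ∧ (∀ p ∈ S, aeval f p = 0) ∧ HasValue c x f ∧
    ∀ j, hgt ℂ (f j) ≤ max B 0} with hM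
  have hMinf : M.Infinite := by
    intro hMfin
    obtain ⟨φ0, -⟩ := hinf.nonempty
    let g : (Fin (n + 1) → E) → ℙ E (Fin (n + 1) → E) := fun f =>
      if h : f ≠ 0 then Projectivization.mk E f h else φ0
    refine hinf ((hMfin.image g).subset ?_)
    rintro φ ⟨f, hf, hmap, hval, hht, rfl⟩
    have hfne : ∃ j, f j ≠ 0 := Function.ne_iff.1 hf
    have hfj0 := Pool.Agent.W273.RG.FNW.hv_ne hfne hval hj0
    have hc0 : (f j0)⁻¹ ≠ 0 := inv_ne_zero hfj0
    have hf' : (fun j => (f j0)⁻¹ * f j) ≠ 0 := by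
      intro h0
      have := congrFun h0 j0
      simp only [Pi.zero_apply] at this
      exact (mul_ne_zero hc0 hfj0) this
    refine ⟨fun j => (f j0)⁻¹ * f j, ⟨inv_mul_cancel₀ hfj0, ?_,
      Pool.Agent.W273.RG.FNW.hv_scale hfne hval hc0, ?_⟩, ?_⟩
    · intro p hp
      exact bend_scale (hS p hp) f _ (hmap p hp)
    · intro j
      by_cases h0 : f j = 0
      · have h7 : hgt ℂ ((f j0)⁻¹ * f j) = 0 := by
          rw [h0, mul_zero]
          exact Pool.Agent.W603.PV.hgt_algebraic (k := ℂ) (K := E) (f := 0) isAlgebraic_zero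
        simp only [h7]
        exact le_max_right _ _
      · have h6 := Pool.Agent.W603.CX.hgt_le_pht (k := ℂ) f (j := j) (l := j0) h0 hfj0
        have e : (f j0)⁻¹ * f j = f j / f j0 := by rw [div_eq_mul_inv, mul_comm]
        simp only [e]
        exact (h6.trans hht).trans (le_max_left _ _)
    · change (if h : (fun j => (f j0)⁻¹ * f j) ≠ 0 then
        Projectivization.mk E (fun j => (f j0)⁻¹ * f j) h else φ0) = _
      rw [dif_pos hf', Projectivization.mk_eq_mk_iff']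
      exact ⟨(f j0)⁻¹, by funext j; rfl⟩
  have hvalues : ∀ f ∈ M, ∀ j, f j = algebraMap ℂ E (x j / x j0) ∨
      0 < c.ord (f j - algebraMap ℂ E (x j / x j0)) := by
    rintro f ⟨hf0, hmap, hval, hht⟩ j
    have hp := Pool.Agent.W273.RG.FNW.pord_zero hval hj0 hf0
    have hxj0 : algebraMap ℂ E (x j0) ≠ 0 := (map_ne_zero _).2 hj0
    have e : algebraMap ℂ E (x j0) * f j - algebraMap ℂ E (x j) * f j0 =
        algebraMap ℂ E (x j0) * (f j - algebraMap ℂ E (x j / x j0)) := by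
      rw [hf0, map_div₀]
      field_simp
    rcases hval j0 j with h3 | h3
    · left
      rw [e] at h3
      exact sub_eq_zero.1 ((mul_eq_zero.1 h3).resolve_left hxj0)
    · by_cases h4 : f j - algebraMap ℂ E (x j / x j0) = 0
      · left; exact sub_eq_zero.1 h4
      · right
        rw [e, c.ord_mul hxj0 h4, c.ord_const hj0, zero_add, hp] at h3
        exact h3
  let z : ℕ ↪ M := hMinf.natEmbedding M
  obtain ⟨g, ⟨j1, hj1⟩, hg1, hg2⟩ := Pool.Agent.TH152.BB.bb_val Pool.Agent.TH152.BB.bb_all c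
    (fun m => (z m : Fin (n + 1) → E)) (fun j => x j / x j0) (max B 0)
    (fun a b hab => z.injective (Subtype.ext hab)) (fun m j => hvalues _ (z m).2 j)
    (fun m j => (z m).2.2.2.2 j)
  have hg0 : g j0 = 1 := by
    have h1 := hg1 (X j0 - 1) (fun m => by
      rw [map_sub, aeval_X, map_one]; exact sub_eq_zero.2 (z m).2.1)
    rw [map_sub, aeval_X, map_one] at h1
    exact sub_eq_zero.1 h1
  refine ⟨g, ?_, fun p hp => hg1 p fun m => (z m).2.2.1 p hp, ?_, ?_⟩
  · intro h0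
    rw [h0] at hg0
    exact zero_ne_one hg0
  · rintro ⟨r, w, hrw⟩
    apply hj1
    have h0 : r * algebraMap ℂ (RatFunc ℂ) (w j0) = 1 := by
      rw [← hg0, hrw]
    have hw : algebraMap ℂ (RatFunc ℂ) (w j0) ≠ 0 := right_ne_zero_of_mul_eq_one h0
    have hr : r = algebraMap ℂ (RatFunc ℂ) (w j0)⁻¹ := by
      rw [map_inv₀]
      exact eq_inv_of_mul_eq_one_left h0
    refine ⟨(w j0)⁻¹ * w j1, ?_⟩
    rw [map_mul, ← hr, hrw]
  · rintro F ⟨e, he⟩ hF
    have h1 := hg2 F hF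
    have h2 : x = x j0 • fun j => x j / x j0 := by
      funext j
      rw [Pi.smul_apply, smul_eq_mul, mul_div_cancel₀ _ hj0]
    rw [h2, Pool.Agent.N254.SQ.eval_scale he, h1, mul_zero]

/-- a form which vanishes on a map vanishes at its values -/
theorem value_zero {n : ℕ} {E : Type} [Field E] [Algebra ℂ E] {c : Place ℂ E}
    {x : Fin (n + 1) → ℂ} (hx : x ≠ 0) {f : Fin (n + 1) → E} (hf : f ≠ 0) (h : HasValue c x f)
    {F : MvPolynomial (Fin (n + 1)) ℂ} (hF : IsForm F) (hfF : aeval f F = 0) : eval x F = 0 := by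
  obtain ⟨a, ha, hg⟩ := ptd_near hx hf h
  have h0 : ∀ j, Ge c 0 ((a • f) j) := by
    intro j
    have := ((hg j).mono (by norm_num : (0 : ℤ) ≤ 1)).add (Ge.const (P := c) (x j))
    rwa [sub_add_cancel] at this
  have h1 := Pool.Agent.W603.LV.red_mvaeval c h0 hg F
  rw [(Pool.Agent.N254.SQ.aeval_zero_of hF ha f).2 hfF, zero_sub] at h1
  have h2 : Ge c 1 (algebraMap ℂ E (eval x F)) := by
    have := h1.neg
    rwa [neg_neg] at this
  exact Pool.Agent.W603.LV.const_zero c h2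

section

variable {n N d c : ℕ} {m : Fin (N + 1) → Fin (n + 1) → ℕ}
  {S : Set (MvPolynomial (Fin (n + 1)) ℂ)} {P ℓ ℓ' : Fin c → MvPolynomial (Fin (N + 1)) ℂ}

/-- **Finiteness of pointed maps off the sheets**: there are only finitely many maps from a
pointed curve to the cover with a given value not over `v(V(S))`. -/
theorem off_finite (hga : GoodA n N d c m S P ℓ) {E : Type} [Field E] [Algebra ℂ E] [IsFF ℂ E]
    (cp : Place ℂ E) {y0 : Fin (N + c + 1) → ℂ} (hy0 : y0 ≠ 0)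
    {F : MvPolynomial (Fin (N + c + 1)) ℂ} (hF : IsForm F)
    (hFV : ∀ (L : Type) [Field L] [Algebra ℂ L] (y : Fin (N + c + 1) → L),
      (∃ (x : Fin (n + 1) → L) (c₀ : L), x ≠ 0 ∧ c₀ ≠ 0 ∧ (∀ p ∈ S, aeval x p = 0) ∧
        y ∘ hI N c = c₀ • ver m x) → aeval y F = 0) (hFy : eval y0 F ≠ 0) :
    {φ : ℙ E (Fin (N + c + 1) → E) | ∃ (f : Fin (N + c + 1) → E) (hf : f ≠ 0),
        (∀ p ∈ coverEqs P, aeval f p = 0) ∧ HasValue cp y0 f ∧
        φ = Projectivization.mk E f hf}.Finite := by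
  obtain ⟨A, hA⟩ := hga.alg
  by_contra hinf
  have hinf2 : {φ : ℙ E (Fin (N + c + 1) → E) | ∃ (f : Fin (N + c + 1) → E) (hf : f ≠ 0),
      (∀ p ∈ coverEqs P, aeval f p = 0) ∧ HasValue cp y0 f ∧
      pht ℂ f ≤ A * max (canDeg ℂ E) 0 ∧ φ = Projectivization.mk E f hf}.Infinite := by
    intro hfin
    apply hinf
    refine hfin.subset ?_
    rintro φ ⟨f, hf, hfA, hv, rfl⟩
    rcases hA E f hf hfA with h3 | h3
    · exact ⟨f, hf, hfA, hv, h3, rfl⟩
    · exact absurd (value_zero hy0 hf hv hF (hFV E f h3)) hFy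
  obtain ⟨y, hy, hyA, hyn, hyF⟩ := bend_at (Pool.Agent.U207.QC.covEqs_form hga.toC.homP) cp _ hy0
    hinf2
  rcases hA (RatFunc ℂ) y hy hyA with h3 | h3
  · rw [Pool.Agent.Y216.canDeg_ratFunc] at h3
    exact hyn (ptd_const hy (h3.trans (by norm_num)))
  · exact hFy (hyF F hF (hFV _ y h3))

end

end Pool.Agent.U207.QH
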