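import Pool.Agent.W603.LV.Root
import Pool.Agent.W603.LV.Trans

/-!
Project QH (helper207), part A: heights of functions which depend algebraically on other functions.
If over all extension fields a coordinate of the solutions of a system is algebraic over the field
generated by certain other coordinates, then on curves its height is bounded by a multiple of the
heights of these coordinates.
-/

set_option autoImplicit false

namespace Pool.Agent.U207.QH

open MvPolynomial FF
open Pool.Agent.W603.LV (hgt hgt_nonneg hgt_zero hgt_mvpoly hgt_root)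

/-- a relation for an algebraic element -/
theorem exists_rel {k L : Type} [Field k] [Field L] [Algebra k L] {ρ : Type}
    (r : ρ → L) (z : L) (hz : IsAlgebraic (IntermediateField.adjoin k (Set.range r)) z) :
    ∃ (D : ℕ) (c : ℕ → MvPolynomial ρ k), aeval r (c D) ≠ 0 ∧
      ∑ d ∈ Finset.range (D + 1), aeval r (c d) * z ^ d = 0 := by
  classical
  obtain ⟨p, hp0, hp⟩ := hz
  have hc : ∀ a : IntermediateField.adjoin k (Set.range r), ∃ x y : MvPolynomial ρ k,
      aeval r y ≠ 0 ∧ (a : L) * aeval r y = aeval r x := by
    rintro ⟨a, ha⟩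
    rw [IntermediateField.mem_adjoin_range_iff] at ha
    obtain ⟨x, y, hxy⟩ := ha
    by_cases hy : aeval r y = 0
    · refine ⟨0, 1, by simp, ?_⟩
      simp only [map_zero, map_one, mul_one]
      rw [hxy, hy, div_zero]
    · refine ⟨x, y, hy, ?_⟩
      simp only
      rw [hxy]; field_simp
  choose x y hy hxy using hc
  refine ⟨p.natDegree, fun d => if d ∈ p.support then x (p.coeff d) *
    ∏ j ∈ p.support.erase d, y (p.coeff j) else 0, ?_, ?_⟩
  · have h1 : p.natDegree ∈ p.support := Polynomial.natDegree_mem_support_of_nonzero hp0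
    simp only [h1, if_true]
    rw [map_mul, map_prod]
    refine mul_ne_zero ?_ (Finset.prod_ne_zero_iff.2 fun j _ => hy _)
    rw [← hxy]
    refine mul_ne_zero ?_ (hy _)
    intro h0
    exact Polynomial.mem_support_iff.1 h1 (Subtype.ext h0)
  · have h2 : ∑ d ∈ p.support, (p.coeff d : L) * z ^ d = 0 := by
      rw [← hp, Polynomial.aeval_def, Polynomial.eval₂_eq_sum, Polynomial.sum]
      rfl
    have h3 : ∑ d ∈ Finset.range (p.natDegree + 1), aeval r (if d ∈ p.support then x (p.coeff d) *
        ∏ j ∈ p.support.erase d, y (p.coeff j) else 0) * z ^ d =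
        ∑ d ∈ p.support, aeval r (x (p.coeff d) * ∏ j ∈ p.support.erase d, y (p.coeff j)) *
          z ^ d := by
      refine (Finset.sum_subset (s₁ := p.support) ?_ ?_).symm.trans ?_
      · intro d hd
        exact Finset.mem_range.2 (Nat.lt_succ_of_le (Polynomial.le_natDegree_of_mem_supp d hd))
      · intro d _ hd
        rw [if_neg hd, map_zero, zero_mul]
      · refine Finset.sum_congr rfl fun d hd => ?_
        rw [if_pos hd]
    rw [h3]
    have h4 : ∀ d ∈ p.support, aeval r (x (p.coeff d) * ∏ j ∈ p.support.erase d, y (p.coeff j)) *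
        z ^ d = (∏ j ∈ p.support, aeval r (y (p.coeff j))) * ((p.coeff d : L) * z ^ d) := by
      intro d hd
      rw [map_mul, map_prod, ← hxy, ← Finset.mul_prod_erase p.support _ hd]
      ring
    rw [Finset.sum_congr rfl h4, ← Finset.mul_sum, h2, mul_zero]

section dom

variable {k : Type} [Field k] {σ ρ : Type} [Finite σ] [Fintype ρ]
  (r : ρ → σ) (v : σ) (g0 : MvPolynomial σ k)

/-- the height bound on the closed subset of the ideal `I` -/
def HB (I : Ideal (MvPolynomial σ k)) : Prop :=
  ∃ C : ℕ, ∀ (E : Type) [Field E] [Algebra k E] [IsFF k E] (z : σ → E),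
    (∀ p ∈ I, aeval z p = 0) → aeval z g0 ≠ 0 →
      hgt k (z v) ≤ C * ∑ a, hgt k (z (r a))

omit [Finite σ] in
theorem sum_nn {E : Type} [Field E] [Algebra k E] (z : σ → E) :
    0 ≤ ∑ a, hgt k (z (r a)) := Finset.sum_nonneg fun _ _ => hgt_nonneg _

omit [Finite σ] in
theorem HB.two {I J₁ J₂ : Ideal (MvPolynomial σ k)} (h₁ : HB r v g0 J₁) (h₂ : HB r v g0 J₂)
    (h : ∀ (E : Type) [Field E] [Algebra k E] (z : σ → E), (∀ p ∈ I, aeval z p = 0) →
      (∀ p ∈ J₁, aeval z p = 0) ∨ ∀ p ∈ J₂, aeval z p = 0) : HB r v g0 I := by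
  obtain ⟨C₁, h₁⟩ := h₁
  obtain ⟨C₂, h₂⟩ := h₂
  refine ⟨C₁ + C₂, fun E _ _ _ z hz hg => ?_⟩
  have h0 := sum_nn (k := k) r z
  push_cast
  rcases h E z hz with h3 | h3
  · have := h₁ E z h3 hg
    nlinarith
  · have := h₂ E z h3 hg
    nlinarith

omit [Finite σ] in
theorem sup_vanish {I : Ideal (MvPolynomial σ k)} {g : MvPolynomial σ k} {E : Type} [Field E]
    [Algebra k E] {z : σ → E} (h : ∀ p ∈ I, aeval z p = 0) (hg : aeval z g = 0) :
    ∀ p ∈ I ⊔ Ideal.span {g}, aeval z p = 0 := by
  have h1 : I ⊔ Ideal.span {g} ≤ RingHom.ker (aeval z : MvPolynomial σ k →ₐ[k] E).toRingHom := by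
    rw [sup_le_iff]
    refine ⟨fun p hp => ?_, ?_⟩
    · rw [RingHom.mem_ker]
      exact h p hp
    · rw [Ideal.span_le, Set.singleton_subset_iff]
      change g ∈ RingHom.ker _
      rw [RingHom.mem_ker]
      exact hg
  intro p hp
  have := h1 hp
  rw [RingHom.mem_ker] at this
  exact this

variable [IsAlgClosed k] [CharZero k]

/-- **Heights of algebraically dependent functions.** -/
theorem dominate (I₀ : Ideal (MvPolynomial σ k))
    (hyp : ∀ (K : Type) [Field K] [Algebra k K] (z : σ → K), (∀ p ∈ I₀, aeval z p = 0) →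
      aeval z g0 ≠ 0 → IsAlgebraic (IntermediateField.adjoin k (Set.range fun a => z (r a))) (z v)) :
    HB r v g0 I₀ := by
  classical
  have main : ∀ I : Ideal (MvPolynomial σ k), I₀ ≤ I → HB r v g0 I := by
    intro I
    induction I using IsNoetherian.induction with
    | _ I ih =>
    intro hI
    by_cases hg0 : g0 ∈ I
    · exact ⟨0, fun E _ _ _ z hz hg => absurd (hz g0 hg0) hg⟩
    by_cases hprime : Ideal.IsPrime I
    · -- the generic point
      let A := MvPolynomial σ k ⧸ I
      have hdom : IsDomain A := Ideal.Quotient.isDomain I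
      let K := FractionRing A
      let z : σ → K := fun s => algebraMap A K (Ideal.Quotient.mk I (X s))
      have hz : ∀ p : MvPolynomial σ k, aeval z p = algebraMap A K (Ideal.Quotient.mk I p) := by
        intro p
        have h1 : (aeval z : MvPolynomial σ k →ₐ[k] K) =
            (IsScalarTower.toAlgHom k A K).comp (Ideal.Quotient.mkₐ k I) := by
          apply MvPolynomial.algHom_ext
          intro s
          rw [aeval_X]
          rfl
        rw [h1]
        rfl
      have hz0 : ∀ p, aeval z p = 0 ↔ p ∈ I := by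
        intro p
        rw [hz, map_eq_zero_iff _ (IsFractionRing.injective A K), Ideal.Quotient.eq_zero_iff_mem]
      obtain ⟨D, c, hcD, hc⟩ := exists_rel (fun a => z (r a)) (z v)
        (hyp K z (fun p hp => (hz0 p).2 (hI hp)) fun h => hg0 ((hz0 g0).1 h))
      let e : ℕ → MvPolynomial σ k := fun d => rename r (c d)
      have he : ∀ (E : Type) [Field E] [Algebra k E] (y : σ → E) (d : ℕ),
          aeval y (e d) = aeval (fun a => y (r a)) (c d) := by
        intro E _ _ y d
        simp only [e]
        rw [aeval_rename]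
        rfl
      have hrel : ∑ d ∈ Finset.range (D + 1), e d * X v ^ d ∈ I := by
        rw [← hz0, map_sum]
        simp only [map_mul, map_pow, aeval_X, he]
        exact hc
      have heD : e D ∉ I := by
        rw [← hz0, he]
        exact hcD
      obtain ⟨C, hC⟩ := ih (I ⊔ Ideal.span {e D}) (by
        refine lt_of_le_of_ne le_sup_left fun h => heD ?_
        rw [h]
        exact Ideal.mem_sup_right (Ideal.subset_span rfl)) (hI.trans le_sup_left)
      refine ⟨C + ((c D).totalDegree + ∑ d ∈ Finset.range D, (c d).totalDegree),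
        fun E _ _ _ y hy hg => ?_⟩
      have h0 := sum_nn (k := k) r y
      push_cast
      by_cases hyD : aeval y (e D) = 0
      · have h1 := hC E y (sup_vanish hy hyD) hg
        have h2 : (0 : ℤ) ≤ ((c D).totalDegree : ℤ) + ∑ d ∈ Finset.range D,
            ((c d).totalDegree : ℤ) := by positivity
        nlinarith
      · have h1 := hgt_root (k := k) (fun d => aeval y (e d)) hyD (y v) (by
          have h2 := hy _ hrel
          rw [map_sum] at h2
          simpa only [map_mul, map_pow, aeval_X] using h2)
        have h3 : ∀ d, hgt k (aeval y (e d)) ≤ (c d).totalDegree * ∑ a, hgt k (y (r a)) := by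
          intro d
          rw [he]
          exact hgt_mvpoly _ _
        have h4 := h3 D
        have h5 := Finset.sum_le_sum fun d (_ : d ∈ Finset.range D) => h3 d
        rw [← Finset.sum_mul] at h5
        have h6 : (0 : ℤ) ≤ (C : ℤ) * ∑ a, hgt k (y (r a)) := by positivity
        linarith
    · by_cases htop : I = ⊤
      · refine ⟨0, fun E _ _ _ z hz _ => ?_⟩
        have := hz 1 (by rw [htop]; trivial)
        rw [map_one] at this
        exact absurd this one_ne_zero
      obtain ⟨a, b, hab, ha, hb⟩ : ∃ a b, a * b ∈ I ∧ a ∉ I ∧ b ∉ I := by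
        by_contra hcon
        push Not at hcon
        apply hprime
        refine ⟨htop, fun {a b} hab => ?_⟩
        by_cases ha : a ∈ I
        · exact Or.inl ha
        · exact Or.inr (hcon a b hab ha)
      refine HB.two r v g0 (ih (I ⊔ Ideal.span {a}) ?_ (hI.trans le_sup_left))
        (ih (I ⊔ Ideal.span {b}) ?_ (hI.trans le_sup_left)) ?_
      · refine lt_of_le_of_ne le_sup_left fun h => ha ?_
        rw [h]
        exact Ideal.mem_sup_right (Ideal.subset_span rfl)
      · refine lt_of_le_of_ne le_sup_left fun h => hb ?_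
        rw [h]
        exact Ideal.mem_sup_right (Ideal.subset_span rfl)
      · intro E _ _ z hz
        have h1 := hz _ hab
        rw [map_mul] at h1
        rcases mul_eq_zero.1 h1 with h2 | h2
        · exact Or.inl (sup_vanish hz h2)
        · exact Or.inr (sup_vanish hz h2)
  exact main I₀ le_rfl

end dom

end Pool.Agent.U207.QH
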