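import Pool.Agent.U207.QC.Str
import Pool.Agent.U207.QH.Dom
import Pool.Agent.Y190.GN.Hgt

/-!
Project QH (helper207), part B: the heights of the points of the covers `x_i ^ 2 = P_i(h)` over function
fields of curves.
-/

set_option autoImplicit false

namespace Pool.Agent.U207.QH

open Polynomial FF
open Pool.Agent.W603.LV (hgt hgt_nonneg hgt_zero hgt_mvpoly canDeg)
open Pool.Agent.Y190.GN (hbd hgt_bound_lin hgt_const)
open Pool.Agent.U207.QC (sp hp pf hp_ne hp_natDegree hp_eval pf_hom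
  exists_sq exists_nodes sp_eq_zero all_ratios aeval_smul_two)

/-- Lagrange interpolation with constant nodes -/
theorem interp {k K : Type} [Field k] [Field K] [Algebra k K] {n : ℕ} {y : Fin (n + 1) → k}
    (hy : Function.Injective y) {F : K[X]} (hn : F.natDegree ≤ n) :
    F = ∑ i : Fin (n + 1), C (F.eval (algebraMap k K (y i))) *
      (Lagrange.basis Finset.univ y i).map (algebraMap k K) := by
  classical
  have hinj : Set.InjOn (fun i => algebraMap k K (y i)) (Finset.univ : Finset (Fin (n + 1))) :=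
    fun i _ j _ hij => hy ((algebraMap k K).injective hij)
  have hinj' : Set.InjOn y (Finset.univ : Finset (Fin (n + 1))) := fun i _ j _ hij => hy hij
  refine Polynomial.eq_of_degrees_lt_of_eval_index_eq
    (v := fun i : Fin (n + 1) => algebraMap k K (y i)) Finset.univ hinj ?_ ?_ ?_
  · rw [Finset.card_univ, Fintype.card_fin]
    refine (Polynomial.degree_le_natDegree).trans_lt ?_
    exact_mod_cast Nat.lt_succ_of_le hn
  · rw [Finset.card_univ, Fintype.card_fin]
    refine (Polynomial.degree_sum_le _ _).trans_lt ?_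
    rw [Finset.sup_lt_iff (WithBot.bot_lt_coe _)]
    intro i _
    refine (Polynomial.degree_mul_le _ _).trans_lt ?_
    refine lt_of_le_of_lt (add_le_add Polynomial.degree_C_le le_rfl) ?_
    rw [zero_add, Polynomial.degree_map, Lagrange.degree_basis hinj' (Finset.mem_univ i)]
    simp only [Finset.card_univ, Fintype.card_fin]
    exact_mod_cast Nat.lt_succ_self n
  · intro j _
    rw [Polynomial.eval_finsetSum]
    have h3 : ∀ i : Fin (n + 1), ((Lagrange.basis Finset.univ y i).map (algebraMap k K)).eval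
        (algebraMap k K (y j)) = if i = j then 1 else 0 := by
      intro i
      rw [Polynomial.eval_map_algebraMap, Polynomial.aeval_algebraMap_apply,
        Polynomial.coe_aeval_eq_eval]
      split_ifs with h
      · rw [h, Lagrange.eval_basis_self hinj' (Finset.mem_univ j), map_one]
      · rw [Lagrange.eval_basis_of_ne h (Finset.mem_univ j), map_zero]
    simp only [Polynomial.eval_mul, Polynomial.eval_C, h3]
    simp

/-- the variables: `h_j`, `u`, the coefficients of `q`, the values of `H₁` -/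
abbrev Vr (N D : ℕ) : Type := (Fin (N + 1) ⊕ Unit) ⊕ (Fin (D + 1) ⊕ Fin (D + 1))

section univ

variable {k : Type} [Field k] {N s : ℕ}

/-- the universal equation -/
noncomputable def W (B κ D : ℕ) (Q : Fin s → MvPolynomial (Fin (N + 1)) k) (nd : Fin (D + 1) → k) :
    (MvPolynomial (Vr N D) k)[X] :=
  (∑ j : Fin (N + 1), monomial (j : ℕ) (MvPolynomial.X (Sum.inl (Sum.inl j)))) ^ 2 +
    X ^ B * expand _ κ (∑ t : Fin s, monomial (t : ℕ)
      (MvPolynomial.rename (fun j => Sum.inl (Sum.inl j)) (Q t))) -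
    (∑ i : Fin (D + 1), monomial (i : ℕ) (MvPolynomial.X (Sum.inr (Sum.inl i)))) ^ 2 *
      (C (MvPolynomial.X (Sum.inl (Sum.inr ()))) *
        ∑ l : Fin (D + 1), C (MvPolynomial.X (Sum.inr (Sum.inr l))) *
          (Lagrange.basis Finset.univ nd l).map MvPolynomial.C)

/-- the equation for given values -/
theorem W_map (B κ D : ℕ) (Q : Fin s → MvPolynomial (Fin (N + 1)) k) (nd : Fin (D + 1) → k)
    {K : Type} [Field K] [Algebra k K] (z : Vr N D → K) :
    (W B κ D Q nd).map (MvPolynomial.aeval z : MvPolynomial (Vr N D) k →ₐ[k] K).toRingHom =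
      hp B κ Q (fun j => z (Sum.inl (Sum.inl j))) -
        (∑ i : Fin (D + 1), monomial (i : ℕ) (z (Sum.inr (Sum.inl i)))) ^ 2 *
          (C (z (Sum.inl (Sum.inr ()))) * ∑ l : Fin (D + 1), C (z (Sum.inr (Sum.inr l))) *
            (Lagrange.basis Finset.univ nd l).map (algebraMap k K)) := by
  have h1 : ∀ p : MvPolynomial (Vr N D) k,
      (MvPolynomial.aeval z : MvPolynomial (Vr N D) k →ₐ[k] K).toRingHom p =
        MvPolynomial.aeval z p := fun _ => rfl
  have h2 : (MvPolynomial.aeval z : MvPolynomial (Vr N D) k →ₐ[k] K).toRingHom.comp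
      MvPolynomial.C = algebraMap k K := by
    ext a
    rw [RingHom.comp_apply, h1, MvPolynomial.aeval_C]
  unfold W hp Pool.Agent.U207.QC.lp sp
  rw [Polynomial.map_sub, Polynomial.map_add, Polynomial.map_pow, Polynomial.map_mul,
    Polynomial.map_pow, Polynomial.map_X, Polynomial.map_expand, Polynomial.map_mul,
    Polynomial.map_pow, Polynomial.map_mul, Polynomial.map_C, Polynomial.map_sum,
    Polynomial.map_sum, Polynomial.map_sum, Polynomial.map_sum]
  simp only [Polynomial.map_monomial, Polynomial.map_mul, Polynomial.map_C, Polynomial.map_map,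
    h2, h1, MvPolynomial.aeval_X, MvPolynomial.aeval_rename]
  rfl

/-- the ideal of the universal equations -/
noncomputable def I₀ (B κ D : ℕ) (Q : Fin s → MvPolynomial (Fin (N + 1)) k)
    (nd : Fin (D + 1) → k) (j0 : Fin (N + 1)) : Ideal (MvPolynomial (Vr N D) k) :=
  Ideal.span (insert (MvPolynomial.X (Sum.inl (Sum.inl j0)) - 1)
    (Set.range fun i : ℕ => (W B κ D Q nd).coeff i))

theorem mem_I₀ (B κ D : ℕ) (Q : Fin s → MvPolynomial (Fin (N + 1)) k)
    (nd : Fin (D + 1) → k) (j0 : Fin (N + 1)) {K : Type} [Field K] [Algebra k K]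
    (z : Vr N D → K) : (∀ p ∈ I₀ B κ D Q nd j0, MvPolynomial.aeval z p = 0) ↔
      z (Sum.inl (Sum.inl j0)) = 1 ∧ hp B κ Q (fun j => z (Sum.inl (Sum.inl j))) =
        (∑ i : Fin (D + 1), monomial (i : ℕ) (z (Sum.inr (Sum.inl i)))) ^ 2 *
          (C (z (Sum.inl (Sum.inr ()))) * ∑ l : Fin (D + 1), C (z (Sum.inr (Sum.inr l))) *
            (Lagrange.basis Finset.univ nd l).map (algebraMap k K)) := by
  constructor
  · intro h
    refine ⟨?_, ?_⟩
    · have h1 := h _ (Ideal.subset_span (Set.mem_insert _ _))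
      rw [map_sub, MvPolynomial.aeval_X, map_one, sub_eq_zero] at h1
      exact h1
    · rw [← sub_eq_zero, ← W_map]
      ext i
      rw [coeff_map, coeff_zero]
      exact h _ (Ideal.subset_span (Set.mem_insert_of_mem _ ⟨i, rfl⟩))
  · rintro ⟨h1, h2⟩
    have h3 : I₀ B κ D Q nd j0 ≤
        RingHom.ker (MvPolynomial.aeval z : MvPolynomial (Vr N D) k →ₐ[k] K).toRingHom := by
      unfold I₀
      rw [Ideal.span_le]
      rintro p (rfl | ⟨i, rfl⟩)
      · change _ ∈ RingHom.ker _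
        rw [RingHom.mem_ker]
        change MvPolynomial.aeval z _ = 0
        rw [map_sub, MvPolynomial.aeval_X, map_one, h1, sub_self]
      · change _ ∈ RingHom.ker _
        rw [RingHom.mem_ker, ← coeff_map, W_map, h2, sub_self, coeff_zero]
    intro p hp
    have := h3 hp
    rw [RingHom.mem_ker] at this
    exact this

/-- the algebraic dependence -/
theorem dep [IsAlgClosed k] [CharZero k] {B κ D : ℕ} {Q : Fin s → MvPolynomial (Fin (N + 1)) k}
    (hQ : ∀ t, (Q t).IsHomogeneous 2) (hκ : N < κ) (hB : 6 * N + κ * s < B)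
    (nd : Fin (D + 1) → k) (j0 : Fin (N + 1)) (t : Fin s) (i : Fin (N + 1)) {K : Type} [Field K]
    [Algebra k K] (z : Vr N D → K) (h0 : ∀ p ∈ I₀ B κ D Q nd j0, MvPolynomial.aeval z p = 0)
    (ht : MvPolynomial.aeval z (MvPolynomial.rename
      (fun j => (Sum.inl (Sum.inl j) : Vr N D)) (Q t)) ≠ 0) :
    IsAlgebraic (IntermediateField.adjoin k (Set.range fun l => z (Sum.inr (Sum.inr l))))
      (z (Sum.inl (Sum.inl i))) := by
  classical
  obtain ⟨h1, heq⟩ := (mem_I₀ B κ D Q nd j0 z).1 h0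
  obtain ⟨h, hh⟩ : ∃ h : Fin (N + 1) → K, h = fun j => z (Sum.inl (Sum.inl j)) := ⟨_, rfl⟩
  rw [← hh] at heq
  have ht' : MvPolynomial.aeval h (Q t) ≠ 0 := by
    rw [MvPolynomial.aeval_rename] at ht
    rw [hh]
    exact ht
  have hj0 : h j0 = 1 := by rw [hh]; exact h1
  have hh0 : h ≠ 0 := by
    intro h2
    rw [h2] at hj0
    exact zero_ne_one hj0
  have hS : sp Q h ≠ 0 := by
    intro h2
    exact ht' (sp_eq_zero.1 h2 t)
  set E := IntermediateField.adjoin k (Set.range fun l => z (Sum.inr (Sum.inr l))) with hE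
  obtain ⟨F1, hF1⟩ : ∃ F1, F1 = algebraicClosure E K := ⟨_, rfl⟩
  set F : IntermediateField k K := F1.restrictScalars k with hFd
  have hmem : ∀ x : K, x ∈ F ↔ IsAlgebraic E x := by
    intro x
    rw [hFd, hF1]
    exact mem_algebraicClosure_iff
  have hEF : ∀ x ∈ E, x ∈ F := fun x hx => (hmem x).2 (isAlgebraic_algebraMap (⟨x, hx⟩ : E))
  have hF : ∀ x : K, IsAlgebraic F x → x ∈ F := by
    intro x hx
    rw [hmem]
    have h1 : IsAlgebraic F1 x := hx
    have h2 : Algebra.IsAlgebraic E F1 := by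
      rw [hF1]
      exact algebraicClosure.isAlgebraic E K
    exact h1.restrictScalars E
  have hzF : ∀ l, z (Sum.inr (Sum.inr l)) ∈ F := fun l =>
    hEF _ (IntermediateField.subset_adjoin k _ ⟨l, rfl⟩)
  have hmap : (∑ l : Fin (D + 1), C (⟨z (Sum.inr (Sum.inr l)), hzF l⟩ : F) *
      (Lagrange.basis Finset.univ nd l).map (algebraMap k F)).map (algebraMap F K) =
      ∑ l : Fin (D + 1), C (z (Sum.inr (Sum.inr l))) *
            (Lagrange.basis Finset.univ nd l).map (algebraMap k K) := by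
    rw [Polynomial.map_sum]
    refine Finset.sum_congr rfl fun l _ => ?_
    rw [Polynomial.map_mul, Polynomial.map_C, Polynomial.map_map,
      ← IsScalarTower.algebraMap_eq k F K]
    rfl
  rw [← hmap] at heq
  obtain ⟨j1, hj1, hrat, -⟩ := all_ratios F hF hQ hκ hB hh0 hS heq
  have h2 : h i = (h i / h j1) / (h j0 / h j1) := by
    rw [div_div_div_cancel_right₀ hj1, hj0, div_one]
  have h3 : h i ∈ F := by
    rw [h2]
    exact div_mem (hrat i) (hrat j0)
  rw [hh] at h3
  exact (hmem _).1 h3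

end univ

section main

variable {k : Type} [Field k] [IsAlgClosed k] [CharZero k] {N s : ℕ}

theorem hbd_zero (d : ℕ) (c : ℤ) :
    hbd d c 0 = (d * (d * (2 * ((d + 1) * (2 * d)))) : ℕ) * max c 0 := by
  unfold hbd
  push_cast
  rw [max_self]
  ring

/-- **Heights of the points of the covers.** -/
theorem height_or {B κ : ℕ} {Q : Fin s → MvPolynomial (Fin (N + 1)) k}
    (hQ : ∀ t, (Q t).IsHomogeneous 2) (hκ : N < κ) (hB : 6 * N + κ * s < B) :
    ∃ A : ℕ, ∀ (c : ℕ) (a : Fin c → k), Function.Injective a →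
      4 * (B + κ * s) + 1 + (B + κ * s) ≤ c → ∀ (E : Type) [Field E] [Algebra k E] [IsFF k E]
      (h : Fin (N + 1) → E) (x : Fin c → E), h ≠ 0 →
      (∀ i, x i ^ 2 = MvPolynomial.aeval h (pf B κ Q (a i))) →
      (∀ t, MvPolynomial.aeval h (Q t) = 0) ∨ ∃ j0, h j0 ≠ 0 ∧
        (∀ i, hgt k (h i / h j0) ≤ A * max (canDeg k E) 0) ∧
        ∀ i, hgt k (x i / h j0) ≤ A * max (canDeg k E) 0 := by
  classical
  obtain ⟨D, hD⟩ : ∃ D, D = B + κ * s := ⟨_, rfl⟩
  let nd : Fin (D + 1) → k := fun l => ((l : ℕ) : k)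
  have hnd : Function.Injective nd := fun i j hij => Fin.ext (Nat.cast_injective hij)
  have hdom : ∀ (j0 : Fin (N + 1)) (t : Fin s) (i : Fin (N + 1)),
      HB (fun l : Fin (D + 1) => (Sum.inr (Sum.inr l) : Vr N D)) (Sum.inl (Sum.inl i))
        (MvPolynomial.rename (fun j => (Sum.inl (Sum.inl j) : Vr N D)) (Q t))
        (I₀ B κ D Q nd j0) := fun j0 t i =>
    dominate _ _ _ _ fun K _ _ z hz hzt => dep hQ hκ hB nd j0 t i z hz hzt
  choose A₀ hA₀ using hdom
  obtain ⟨A₁, hA₁⟩ : ∃ A₁ : ℕ, A₁ = ∑ j0, ∑ t, ∑ i, A₀ j0 t i := ⟨_, rfl⟩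
  have hle : ∀ j0 t i, A₀ j0 t i ≤ A₁ := by
    intro j0 t i
    rw [hA₁]
    refine le_trans ?_ (Finset.single_le_sum (f := fun j0 => ∑ t, ∑ i, A₀ j0 t i)
      (fun _ _ => Nat.zero_le _) (Finset.mem_univ j0))
    refine le_trans ?_ (Finset.single_le_sum (f := fun t => ∑ i, A₀ j0 t i)
      (fun _ _ => Nat.zero_le _) (Finset.mem_univ t))
    exact Finset.single_le_sum (f := fun i => A₀ j0 t i) (fun _ _ => Nat.zero_le _)
      (Finset.mem_univ i)
  obtain ⟨A₂, hA₂⟩ : ∃ A₂ : ℕ, A₂ = A₁ * ((D + 1) * (D * (D * (2 * ((D + 1) * (2 * D)))))) :=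
    ⟨_, rfl⟩
  refine ⟨A₂ * (N + 1) * 2 + A₂, fun c a ha hc E _ _ _ h x hh hx => ?_⟩
  by_cases hS : ∀ t, MvPolynomial.aeval h (Q t) = 0
  · exact Or.inl hS
  right
  have hchE : CharZero E := charZero_of_injective_algebraMap (algebraMap k E).injective
  obtain ⟨t, ht⟩ := not_forall.1 hS
  obtain ⟨j0, hj0⟩ := Function.ne_iff.1 hh
  have hj0' : h j0 ≠ 0 := hj0
  -- the normalized point
  obtain ⟨h', hh'⟩ : ∃ h' : Fin (N + 1) → E, h' = fun i => (h j0)⁻¹ * h i := ⟨_, rfl⟩
  obtain ⟨x', hx'⟩ : ∃ x' : Fin c → E, x' = fun i => x i / h j0 := ⟨_, rfl⟩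
  have hh'0 : h' j0 = 1 := by
    rw [hh']
    exact inv_mul_cancel₀ hj0'
  have hh'ne : h' ≠ 0 := by
    intro h1
    rw [h1] at hh'0
    exact zero_ne_one hh'0
  have hx'2 : ∀ i, x' i ^ 2 = MvPolynomial.aeval h' (pf B κ Q (a i)) := by
    intro i
    rw [hx', hh', aeval_smul_two (pf_hom B κ hQ (a i)), ← hx, div_pow, inv_pow, div_eq_mul_inv,
      mul_comm]
  have ht' : MvPolynomial.aeval h' (Q t) ≠ 0 := by
    rw [hh', aeval_smul_two (hQ t)]
    exact mul_ne_zero (pow_ne_zero _ (inv_ne_zero hj0')) ht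
  -- the polynomial
  have hne := hp_ne (κ := κ) (by omega : 2 * N < B) Q hh'ne
  have hdeg := hp_natDegree (κ := κ) (by omega : 2 * N ≤ B) Q h'
  rw [← hD] at hdeg
  obtain ⟨q, H₁, hH, hfree⟩ := exists_sq _ (hp B κ Q h') hne le_rfl
  have hq0 : q ≠ 0 := by
    rintro rfl
    exact hne (by rw [hH]; ring)
  have hH₁ : H₁ ≠ 0 := by
    rintro rfl
    exact hne (by rw [hH, mul_zero])
  have hdd : 2 * q.natDegree + H₁.natDegree ≤ D := by
    have h1 := congrArg natDegree hH
    rw [natDegree_mul (pow_ne_zero 2 hq0) hH₁, natDegree_pow] at h1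
    omega
  -- the values of `H₁`
  have hint := interp (K := E) hnd (F := H₁) (by omega)
  obtain ⟨l0, hl0⟩ : ∃ l0, H₁.eval (algebraMap k E (nd l0)) ≠ 0 := by
    by_contra hcon
    push Not at hcon
    apply hH₁
    rw [hint]
    exact Finset.sum_eq_zero fun l _ => by rw [hcon l, map_zero, zero_mul]
  obtain ⟨e, he, heq⟩ := exists_nodes (K := E) (M := 4 * D + 1) (n := D) ha hq0 (by omega)
    (by omega)
  obtain ⟨M0, hM0⟩ : ∃ M0 : ℤ, M0 = (D * (D * (2 * ((D + 1) * (2 * D)))) : ℕ) *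
      max (canDeg k E) 0 := ⟨_, rfl⟩
  have hval : ∀ l, hgt k (H₁.eval (algebraMap k E (nd l)) / H₁.eval (algebraMap k E (nd l0))) ≤
      M0 := by
    intro l
    rw [hM0, ← hbd_zero]
    refine hgt_bound_lin (m := 2) (q := 4 * D + 1) le_rfl (by omega) 0 (fun i => a (e i))
      (fun i j hij => he (ha hij)) H₁ hH₁ (by omega) (fun i => ?_) hfree _ _ (hgt_const _).le
      (hgt_const _).le
    refine ⟨x' (e i) / q.eval (algebraMap k E (a (e i))), ?_⟩
    have h1 := hp_eval B κ Q h' (a (e i))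
    rw [← hx'2, hH, eval_mul, eval_pow] at h1
    rw [div_pow, ← h1, mul_comm, mul_div_assoc, div_self (pow_ne_zero 2 (heq i)), mul_one]
  -- the point of the universal system
  let z : Vr N D → E := Sum.elim (Sum.elim h' fun _ => H₁.eval (algebraMap k E (nd l0)))
    (Sum.elim (fun i => q.coeff i) fun l =>
      H₁.eval (algebraMap k E (nd l)) / H₁.eval (algebraMap k E (nd l0)))
  have hz0 : ∀ p ∈ I₀ B κ D Q nd j0, MvPolynomial.aeval z p = 0 := by
    rw [mem_I₀]
    refine ⟨hh'0, ?_⟩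
    have h1 : (fun j => z (Sum.inl (Sum.inl j))) = h' := rfl
    have h2 : (∑ i : Fin (D + 1), monomial (i : ℕ) (z (Sum.inr (Sum.inl i)))) = q := by
      have h3 := q.as_sum_range' (D + 1) (by omega)
      conv_rhs => rw [h3]
      rw [Finset.sum_range]
      rfl
    have h3 : C (z (Sum.inl (Sum.inr ()))) * ∑ l : Fin (D + 1), C (z (Sum.inr (Sum.inr l))) *
        (Lagrange.basis Finset.univ nd l).map (algebraMap k E) = H₁ := by
      conv_rhs => rw [hint]
      rw [Finset.mul_sum]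
      refine Finset.sum_congr rfl fun l _ => ?_
      rw [← mul_assoc, ← C_mul]
      congr 2
      change H₁.eval (algebraMap k E (nd l0)) * (H₁.eval (algebraMap k E (nd l)) /
        H₁.eval (algebraMap k E (nd l0))) = _
      rw [mul_div_cancel₀ _ hl0]
    rw [h1, h2, h3, hH]
  have hzt : MvPolynomial.aeval z (MvPolynomial.rename
      (fun j => (Sum.inl (Sum.inl j) : Vr N D)) (Q t)) ≠ 0 := by
    rw [MvPolynomial.aeval_rename]
    exact ht'
  have hM00 : 0 ≤ M0 := (hgt_nonneg _).trans (hval l0)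
  have hbound : ∀ i, hgt k (h' i) ≤ A₂ * max (canDeg k E) 0 := by
    intro i
    have h1 := hA₀ j0 t i E z hz0 hzt
    have h2 : ∑ l : Fin (D + 1), hgt k (z (Sum.inr (Sum.inr l))) ≤ (D + 1 : ℕ) * M0 := by
      refine (Finset.sum_le_sum fun l _ => hval l).trans ?_
      rw [Finset.sum_const, Finset.card_univ, Fintype.card_fin, nsmul_eq_mul]
    have h3 : (A₀ j0 t i : ℤ) ≤ A₁ := by exact_mod_cast hle j0 t i
    have h4 : (0 : ℤ) ≤ ∑ l : Fin (D + 1), hgt k (z (Sum.inr (Sum.inr l))) :=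
      Finset.sum_nonneg fun _ _ => hgt_nonneg _
    calc hgt k (h' i) ≤ A₀ j0 t i * ∑ l : Fin (D + 1), hgt k (z (Sum.inr (Sum.inr l))) := h1
      _ ≤ A₁ * ((D + 1 : ℕ) * M0) := mul_le_mul h3 h2 h4 (by positivity)
      _ = A₂ * max (canDeg k E) 0 := by
        rw [hA₂, hM0]
        push_cast
        ring
  have hm0 : 0 ≤ max (canDeg k E) 0 := le_max_right _ _
  refine ⟨j0, hj0', fun i => ?_, fun i => ?_⟩
  · have h1 : h i / h j0 = h' i := by
      rw [hh', div_eq_mul_inv, mul_comm]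
    rw [h1]
    refine (hbound i).trans ?_
    push_cast
    nlinarith [show (0 : ℤ) ≤ A₂ * (N + 1) * 2 by positivity]
  · have h1 : x i / h j0 = x' i := by rw [hx']
    rw [h1]
    by_cases hx0 : x' i = 0
    · rw [hx0, hgt_zero]
      positivity
    have h2 := Pool.Agent.W603.LV.hgt_pow (k := k) hx0 2
    rw [hx'2] at h2
    have h3 := hgt_mvpoly (k := k) h' (pf B κ Q (a i))
    have h4 : (pf B κ Q (a i)).totalDegree ≤ 2 := (pf_hom B κ hQ (a i)).totalDegree_le
    have h5 : ∑ j, hgt k (h' j) ≤ (N + 1 : ℕ) * (A₂ * max (canDeg k E) 0) := by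
      refine (Finset.sum_le_sum fun l _ => hbound l).trans ?_
      rw [Finset.sum_const, Finset.card_univ, Fintype.card_fin, nsmul_eq_mul]
    have h6 : (0 : ℤ) ≤ ∑ j, hgt k (h' j) := Finset.sum_nonneg fun _ _ => hgt_nonneg _
    have h7 : ((pf B κ Q (a i)).totalDegree : ℤ) ≤ 2 := by exact_mod_cast h4
    have h8 : 2 * hgt k (x' i) ≤ 2 * ((N + 1 : ℕ) * (A₂ * max (canDeg k E) 0)) := by
      calc 2 * hgt k (x' i) = hgt k (MvPolynomial.aeval h' (pf B κ Q (a i))) := by
            rw [h2]; push_cast; ring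
        _ ≤ (pf B κ Q (a i)).totalDegree * ∑ j, hgt k (h' j) := h3
        _ ≤ 2 * ((N + 1 : ℕ) * (A₂ * max (canDeg k E) 0)) := mul_le_mul h7 h5 h6 (by norm_num)
    push_cast at h8 ⊢
    have h9 : (0 : ℤ) ≤ A₂ * max (canDeg k E) 0 := by positivity
    nlinarith

end main

end Pool.Agent.U207.QH
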