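import Pool.Agent.U207.QH.Bnd

/-!
Project QH (helper207), part I: pseudo-geometrically hyperbolic subvarieties of the covers.
-/

set_option autoImplicit false

namespace Pool.Agent.U207.QH

open MvPolynomial FF
open Pool.Agent.W603.LV (Ge)
open Pool.Agent.W602.GT (SubVar coords VarPts val)
open Pool.Agent.W602.RG (HasValue PseudoGeomHyp PointedMaps)
open Pool.Agent.N254.SQ (IsForm Mon ver ver_ne_zero NotIn Eqs Lifts pull aeval_pull aeval_scale
  aeval_zero_of pull_hom t_versurj ptd_ne ptd_scale ptd_xscale ptd_prop ptd_uniq ptd_exists coords_ver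
  Idl Gen t_cent qs_point)
open Pool.Agent.U207.QC (hI xI idx_cases coverForm coverEqs Signs el el_h el_x el_hI el_ne el_smul
  GoodC OnV sbl sbl_form sbl_rename aeval_sbl exists_root coords_el notin_iff Exc0 sub_el)
open scoped LinearAlgebra.Projectivization

/-! ### dependence on the closed set only -/

section congr

variable {n : ℕ} {K K' : Type} [Field K] [Algebra ℂ K] [Field K'] [Algebra ℂ K']
  {y : Fin (n + 1) → K} {y' : Fin (n + 1) → K'}

theorem pgh_congr (h : ∀ G, IsForm G → (aeval y G = 0 ↔ aeval y' G = 0))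
    (hy : PseudoGeomHyp ℂ y) : PseudoGeomHyp ℂ y' := by
  obtain ⟨G, hG, hGy, hfin⟩ := hy
  refine ⟨G, hG, fun h0 => hGy ((h G hG).2 h0), fun L _ _ _ c x hx hxG => ?_⟩
  refine (hfin L c x ⟨hx.1, fun H hH hHy => hx.2 H hH ((h H hH).1 hHy)⟩ hxG).subset ?_
  rintro φ ⟨f, hf, hfH, hv, rfl⟩
  exact ⟨f, hf, fun H hH hHy => hfH H hH ((h H hH).1 hHy), hv, rfl⟩

/-- a closed subvariety which is not in the exceptional set -/
theorem pgh_mono (h : ∀ G, IsForm G → aeval y G = 0 → aeval y' G = 0)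
    {G : MvPolynomial (Fin (n + 1)) ℂ} (hG : IsForm G)
    (hfin : ∀ (L : Type) [Field L] [Algebra ℂ L] [IsFF ℂ L] (c : Place ℂ L), ∀ x ∈ VarPts ℂ y,
      val x G ≠ 0 → (PointedMaps y c x).Finite) (hGy : aeval y' G ≠ 0) :
    PseudoGeomHyp ℂ y' := by
  refine ⟨G, hG, hGy, fun L _ _ _ c x hx hxG => ?_⟩
  refine (hfin L c x ⟨hx.1, fun H hH hHy => hx.2 H hH (h H hH hHy)⟩ hxG).subset ?_
  rintro φ ⟨f, hf, hfH, hv, rfl⟩
  exact ⟨f, hf, fun H hH hHy => hfH H hH (h H hH hHy), hv, rfl⟩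

end congr

/-! ### the sheets -/

section sheet

variable {n N d c : ℕ} {m : Fin (N + 1) → Fin (n + 1) → ℕ}
  {S : Set (MvPolynomial (Fin (n + 1)) ℂ)} {P ℓ ℓ' : Fin c → MvPolynomial (Fin (N + 1)) ℂ}
  {K : Type} [Field K] [Algebra ℂ K]

/-- the closed subset with generic point `Ψ(x)` is the image of that with generic point `x` -/
theorem psi_image (hg : GoodC n N d c m S P ℓ) (hl : Signs ℓ ℓ') {x : Fin (n + 1) → K}
    (hxS : ∀ p ∈ S, aeval x p = 0) {Ω : Type} [Field Ω] [Algebra ℂ Ω]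
    {f : Fin (N + c + 1) → Ω} (hf : f ≠ 0)
    (h : ∀ H, IsForm H → aeval (el ℓ' (ver m x)) H = 0 → aeval f H = 0) :
    ∃ (g : Fin (n + 1) → Ω) (s : Ω), g ≠ 0 ∧ s ≠ 0 ∧ f = s • el ℓ' (ver m g) ∧
      ∀ F, IsForm F → aeval x F = 0 → aeval g F = 0 := by
  -- the equations of the sheet
  have hlin : ∀ i, f (xI N c i) = aeval (f ∘ hI N c) (ℓ' i) := by
    intro i
    have h1 := h (X (xI N c i) - rename (hI N c) (ℓ' i))
      ⟨1, (isHomogeneous_X ℂ _).sub (hl.hom hg.homL i).rename_isHomogeneous⟩ (by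
        rw [map_sub, aeval_X, aeval_rename, el_x, el_hI, sub_self])
    rw [map_sub, aeval_X, aeval_rename, sub_eq_zero] at h1
    exact h1
  have hfe : f = el ℓ' (f ∘ hI N c) := by
    funext l
    rcases idx_cases l with ⟨j, rfl⟩ | ⟨i, rfl⟩
    · rw [el_h]
      rfl
    · rw [el_x, hlin]
  have hne : f ∘ hI N c ≠ 0 := by
    intro h0
    apply hf
    rw [hfe, h0]
    funext l
    rcases idx_cases l with ⟨j, rfl⟩ | ⟨i, rfl⟩
    · rw [el_h]
      rfl
    · rw [el_x]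
      have h1 := aeval_scale (hl.hom hg.homL i) (0 : Ω) (0 : Fin (N + 1) → Ω)
      rw [smul_zero, pow_one, zero_mul] at h1
      exact h1
  obtain ⟨s, Z, hZ, hZ1, hZ2⟩ := hg.cone
  obtain ⟨g, c₀, hg0, hc₀, hgS, hgf⟩ := hZ2 Ω (f ∘ hI N c) hne (fun t => by
    have h1 := h (rename (hI N c) (Z t)) ⟨2, (hZ t).rename_isHomogeneous⟩ (by
      rw [aeval_rename, el_hI]
      exact hZ1 K x hxS t)
    rwa [aeval_rename] at h1)
  refine ⟨g, c₀, hg0, hc₀, ?_, ?_⟩
  · rw [← el_smul (hl.hom hg.homL), ← hgf]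
    exact hfe
  · intro F hF hxF
    obtain ⟨F₀, hF₀, hp⟩ := exists_root hg.mon hF
    have h1 : IsForm (rename (hI N c) F₀) := by
      obtain ⟨e, he⟩ := hF₀
      exact ⟨e, he.rename_isHomogeneous⟩
    have h2 := h _ h1 (by
      rw [aeval_rename, el_hI, ← aeval_pull, hp, map_pow, hxF, zero_pow]
      have := hg.hd1
      omega)
    rw [aeval_rename, hgf, aeval_zero_of hF₀ hc₀, ← aeval_pull, hp, map_pow] at h2
    exact eq_zero_of_pow_eq_zero h2

theorem psi_form (hg : GoodC n N d c m S P ℓ) (hl : Signs ℓ ℓ')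
    {H : MvPolynomial (Fin (N + c + 1)) ℂ} (hH : IsForm H) : IsForm (pull m (sbl ℓ' H)) := by
  obtain ⟨e, he⟩ := hH
  exact ⟨_, pull_hom hg.mon (sbl_form (hl.hom hg.homL) he)⟩

theorem psi_aeval {Ω : Type} [Field Ω] [Algebra ℂ Ω] (g : Fin (n + 1) → Ω)
    (H : MvPolynomial (Fin (N + c + 1)) ℂ) :
    aeval (el ℓ' (ver m g)) H = aeval g (pull m (sbl ℓ' H)) := by
  rw [aeval_pull, aeval_sbl]

theorem pgh_down (hg : GoodC n N d c m S P ℓ) (hl : Signs ℓ ℓ') {x : Fin (n + 1) → K}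
    (h : PseudoGeomHyp ℂ (el ℓ' (ver m x))) : PseudoGeomHyp ℂ x := by
  obtain ⟨G, hG, hGy, hfin⟩ := h
  refine ⟨pull m (sbl ℓ' G), psi_form hg hl hG, ?_, fun L _ _ _ cp u hu huG => ?_⟩
  · change aeval x (pull m (sbl ℓ' G)) ≠ 0
    rw [← psi_aeval]
    exact hGy
  · obtain ⟨Φ, hΦi, hΦ⟩ := psi_map hg hl L
    have h1 := hfin L cp (el ℓ' (ver m u)) ⟨psi_ne hg hu.1, fun H hH hHy => by
      change aeval (el ℓ' (ver m u)) H = 0
      rw [psi_aeval]
      refine hu.2 _ (psi_form hg hl hH) ?_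
      change aeval x (pull m (sbl ℓ' H)) = 0
      rw [← psi_aeval]
      exact hHy⟩ (by
      change aeval (el ℓ' (ver m u)) G ≠ 0
      rw [psi_aeval]
      exact huG)
    refine (h1.preimage hΦi.injOn).subset ?_
    rintro φ ⟨f, hf, hfH, hv, rfl⟩
    refine ⟨el ℓ' (ver m f), psi_ne hg hf, fun H hH hHy => ?_, psi_value hg hl hu.1 hf hv, hΦ f hf⟩
    change aeval (el ℓ' (ver m f)) H = 0
    rw [psi_aeval]
    refine hfH _ (psi_form hg hl hH) ?_
    change aeval x (pull m (sbl ℓ' H)) = 0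
    rw [← psi_aeval]
    exact hHy

theorem pgh_up (hg : GoodC n N d c m S P ℓ) (hl : Signs ℓ ℓ') {x : Fin (n + 1) → K}
    (hxS : ∀ p ∈ S, aeval x p = 0) (h : PseudoGeomHyp ℂ x) :
    PseudoGeomHyp ℂ (el ℓ' (ver m x)) := by
  obtain ⟨G, hG, hGy, hfin⟩ := h
  obtain ⟨G₀, hG₀, hp⟩ := exists_root hg.mon hG
  have hd := hg.hd1
  have h1 : IsForm (rename (hI N c) G₀) := by
    obtain ⟨e, he⟩ := hG₀
    exact ⟨e, he.rename_isHomogeneous⟩
  have h2 : ∀ {Ω : Type} [Field Ω] [Algebra ℂ Ω] (g : Fin (n + 1) → Ω),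
      aeval (el ℓ' (ver m g)) (rename (hI N c) G₀) = aeval g G ^ d := by
    intro Ω _ _ g
    rw [aeval_rename, el_hI, ← aeval_pull, hp, map_pow]
  refine ⟨rename (hI N c) G₀, h1, ?_, fun L _ _ _ cp v hv hvG => ?_⟩
  · change aeval (el ℓ' (ver m x)) (rename (hI N c) G₀) ≠ 0
    rw [h2]
    exact pow_ne_zero _ hGy
  · obtain ⟨Φ, hΦi, hΦ⟩ := psi_map hg hl L
    obtain ⟨u, s, hu, hs, hvu, huF⟩ := psi_image hg hl hxS (Ω := ℂ) hv.1 (fun H hH hH0 =>
      hv.2 H hH hH0)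
    have huG : val u G ≠ 0 := by
      intro h0
      apply hvG
      change aeval v (rename (hI N c) G₀) = 0
      rw [hvu, aeval_zero_of h1 hs, h2]
      have h3 : aeval u G = 0 := h0
      rw [h3, zero_pow (by omega)]
    refine ((hfin L cp u ⟨hu, huF⟩ huG).image Φ).subset ?_
    rintro φ ⟨f, hf, hfH, hval, rfl⟩
    obtain ⟨g, s', hg0, hs', hfg, hgF⟩ := psi_image hg hl hxS (Ω := L) hf hfH
    obtain ⟨u', hu', huv⟩ := ptd_exists cp hg0
    have h4 := psi_value hg hl hu' hg0 huv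
    have h5 : HasValue cp v (el ℓ' (ver m g)) := by
      have h6 := ptd_scale hf hval (inv_ne_zero hs')
      rwa [hfg, smul_smul, inv_mul_cancel₀ hs', one_smul] at h6
    obtain ⟨a', ha'⟩ := ptd_prop hv.1 (ptd_uniq (psi_ne hg hg0) h5 h4)
    obtain ⟨r, hr⟩ := psi_prop hg (ℓ' := ℓ') (w := u') (x := u) (s := a' * s) hu' (by
      rw [ha', hvu, smul_smul])
    have hr0 : r ≠ 0 := by
      intro h0
      rw [h0, zero_smul] at hr
      exact hu' hr
    have h7 := ptd_xscale huv r⁻¹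
    rw [hr, smul_smul, inv_mul_cancel₀ hr0, one_smul] at h7
    refine ⟨Projectivization.mk L g hg0, ⟨g, hg0, hgF, h7, rfl⟩, ?_⟩
    rw [hΦ g hg0, Projectivization.mk_eq_mk_iff']
    exact ⟨s'⁻¹, by rw [hfg, smul_smul, inv_mul_cancel₀ hs', one_smul]⟩

/-- subvarieties off the sheets are pseudo-geometrically hyperbolic -/
theorem pgh_off (hga : GoodA n N d c m S P ℓ) {y : Fin (N + c + 1) → K} (hy : y ≠ 0)
    (hyP : ∀ p ∈ coverEqs P, aeval y p = 0)
    (h : ¬ ∃ (x : Fin (n + 1) → K) (c₀ : K), x ≠ 0 ∧ c₀ ≠ 0 ∧ (∀ p ∈ S, aeval x p = 0) ∧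
      y ∘ hI N c = c₀ • ver m x) : PseudoGeomHyp ℂ y := by
  have hg := hga.toC
  obtain ⟨s, Z, hZ, hZ1, hZ2⟩ := hg.cone
  have hyh : y ∘ hI N c ≠ 0 := Pool.Agent.U207.QC.base_ne hg.homP hy fun i => hyP _ ⟨i, rfl⟩
  obtain ⟨t, ht⟩ : ∃ t, aeval (y ∘ hI N c) (Z t) ≠ 0 := by
    by_contra hcon
    push Not at hcon
    exact h (hZ2 K _ hyh hcon)
  have hF : IsForm (rename (hI N c) (Z t)) := ⟨2, (hZ t).rename_isHomogeneous⟩
  refine ⟨rename (hI N c) (Z t), hF, ?_, fun L _ _ _ cp v hv hvG => ?_⟩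
  · change aeval y (rename (hI N c) (Z t)) ≠ 0
    rw [aeval_rename]
    exact ht
  · refine (off_finite hga cp hv.1 hF ?_ hvG).subset ?_
    · rintro L _ _ z ⟨x, c₀, hx, hc₀, hxS, hzx⟩
      rw [aeval_rename, hzx, aeval_zero_of ⟨2, hZ t⟩ hc₀]
      exact hZ1 L x hxS t
    · rintro φ ⟨f, hf, hfH, hval, rfl⟩
      refine ⟨f, hf, ?_, hval, rfl⟩
      rintro _ ⟨i, rfl⟩
      exact hfH _ ⟨2, Pool.Agent.U207.QC.cover_hom hg.homP i⟩ (hyP _ ⟨i, rfl⟩)

end sheet

/-! ### the exceptional sets -/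

/-- `G` vanishes on all closed subvarieties of positive dimension of `V(S)` which are not contained
in `V(T)` and not pseudo-geometrically hyperbolic -/
def OnPghQ {n : ℕ} (S T : Set (MvPolynomial (Fin (n + 1)) ℂ)) (G : MvPolynomial (Fin (n + 1)) ℂ) :
    Prop :=
  ∀ (L : Type) [Field L] [Algebra ℂ L] (w : ℕ) (y : Fin (n + 1) → L), 1 ≤ w →
    SubVar (fun p : S => (p : MvPolynomial (Fin (n + 1)) ℂ)) L w y → NotIn T y →
    PseudoGeomHyp ℂ y ∨ aeval y G = 0

theorem exc0_pgh : Exc0 (fun _ S T G => OnPghQ S T G) where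
  idl := fun n S T =>
    { zero := fun L _ _ w y _ _ _ => Or.inr (map_zero _)
      add := fun e G G' _ _ h h' L _ _ w y hw hy hT => by
        rcases h L w y hw hy hT with h1 | h1
        · exact Or.inl h1
        rcases h' L w y hw hy hT with h2 | h2
        · exact Or.inl h2
        exact Or.inr (by rw [map_add, h1, h2, add_zero])
      mul := fun G F _ _ h L _ _ w y hw hy hT => by
        rcases h L w y hw hy hT with h1 | h1
        · exact Or.inl h1
        exact Or.inr (by rw [map_mul, h1, zero_mul])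
      rad := fun G r _ h L _ _ w y hw hy hT => by
        rcases h L w y hw hy hT with h1 | h1
        · exact Or.inl h1
        rw [map_pow] at h1
        refine Or.inr ?_
        by_contra h2
        exact pow_ne_zero r h2 h1 }
  van := fun n S T G _ hv L _ _ w y _ hy _ => Or.inr (hv L y fun p hp => hy.mem ⟨p, hp⟩)
  restr := by
    intro n S T L _ _ y G H _ _ hF hG L' _ _ w' y' hw' hy' hT'
    by_cases hgt : PseudoGeomHyp ℂ y'
    · exact Or.inl hgt
    right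
    rw [map_mul]
    by_cases hH0 : aeval y' H = 0
    · rw [hH0, mul_zero]
    have hG' : aeval y' G = 0 := by
      refine (hG L' w' y' hw' ⟨hy'.ne, fun p => ?_, hy'.gen, hy'.dim⟩ hT').resolve_left hgt
      have h1 := (hF p.1 p.2.1 p.2.2 L' w' y' hw' hy' hT').resolve_left hgt
      rw [map_mul, mul_eq_zero] at h1
      exact h1.resolve_right hH0
    rw [hG', zero_mul]
  mono := fun n S S' T hST G h L _ _ w y hw hy hT =>
    h L w y hw ⟨hy.ne, fun p => hST L y (fun q hq => hy.mem ⟨q, hq⟩) p p.2, hy.gen, hy.dim⟩ hT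
  coord := by
    intro n S T G _ h L _ _ w y hw hy hT
    by_cases hp : PseudoGeomHyp ℂ y
    · exact Or.inl hp
    right
    obtain ⟨j, hj⟩ := ptd_ne hy.ne
    have h1 := (h j L w y hw hy hT).resolve_left hp
    rw [map_mul, aeval_X, mul_eq_zero] at h1
    exact h1.resolve_right hj
  away := by
    intro n S T H _ _ h L _ _ w y hw hy hT
    obtain ⟨F, hF, hFy⟩ := id hT
    rcases h F hF L w y hw hy hT with h1 | h1
    · exact Or.inl h1
    · rw [map_mul, mul_eq_zero] at h1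
      exact Or.inr (h1.resolve_left hFy)
  point := fun n T L _ _ y hy L' _ _ w y' hw hy' _ => (qs_point hy hw hy').elim

theorem covA_pgh : CovA (fun _ S T G => OnPghQ S T G) := by
  intro n N d c m S P ℓ hga T T' hL G hG
  have hg := hga.toC
  constructor
  · intro h ℓ' hl L _ _ w x hw hx hT
    have hxS : ∀ p ∈ S, aeval x p = 0 := fun p hp => hx.mem ⟨p, hp⟩
    have hV : OnV m S (ver m x) := ⟨x, 1, hx.ne, one_ne_zero, hxS, by rw [one_smul]⟩
    have h1 := coords_ver hg.mon hg.hd1 x hx.ne (1 : L) one_ne_zero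
    rw [one_smul] at h1
    have h2 := t_cent.notIn n N d m hg.hd1 T T' hL L x 1 one_ne_zero
    rw [one_smul] at h2
    rcases h L w (el ℓ' (ver m x)) hw (sub_el (hg.signs hl) hV (by rw [h1]; exact hx.gen) hx.dim)
      (by rw [notin_iff, el_hI]; exact h2.2 hT) with h3 | h3
    · exact Or.inl (pgh_down hg hl h3)
    · right
      rw [← psi_aeval]
      exact h3
  · intro h L _ _ w y hw hy hT
    by_cases hV : ∃ (x : Fin (n + 1) → L) (c₀ : L), x ≠ 0 ∧ c₀ ≠ 0 ∧ (∀ p ∈ S, aeval x p = 0) ∧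
      y ∘ hI N c = c₀ • ver m x
    · have hyP : ∀ i, aeval y (coverForm P i) = 0 := fun i => hy.mem ⟨_, ⟨i, rfl⟩⟩
      obtain ⟨ℓ', hl, hyl⟩ := hg.exists_signs hyP hV
      obtain ⟨x, s, hx, hs, hxS, hyx⟩ := hV
      have hye : y = s • el ℓ' (ver m x) := by rw [hyl, hyx, el_smul (hl.hom hg.homL)]
      have hgen : coords ℂ x = ⊤ := by
        rw [← hy.gen, hyl, coords_el (hl.hom hg.homL)
          (by rw [hyx]; exact smul_ne_zero hs (ver_ne_zero hg.mon hg.hd1 hx)), hyx]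
        exact (coords_ver hg.mon hg.hd1 x hx s hs).symm
      rw [notin_iff, hyx] at hT
      rcases h ℓ' hl L w x hw ⟨hx, fun p => hxS p p.2, hgen, hy.dim⟩
        ((t_cent.notIn n N d m hg.hd1 T T' hL L x s hs).1 hT) with h3 | h3
      · left
        refine pgh_congr (fun H hH => ?_) (pgh_up hg hl hxS h3)
        rw [hye, aeval_zero_of hH hs]
      · right
        rw [hye, aeval_zero_of hG hs, psi_aeval]
        exact h3
    · exact Or.inl (pgh_off hga hy.ne (fun p hp => hy.mem ⟨p, hp⟩) hV)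

end Pool.Agent.U207.QH
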