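import Pool.Agent.U207.QH.Sum
import Pool.Agent.N254.SQ.PtdR
import Pool.Agent.N254.SQ.Bend

/-!
Project QH (helper207), part G: pointed maps from curves to the covers.
-/

set_option autoImplicit false

namespace Pool.Agent.U207.QH

open MvPolynomial FF
open Pool.Agent.W603.LV (canDeg hgt Ge)
open Pool.Agent.W603.PV (pht pord)
open Pool.Agent.W602.RG (HasValue)
open Pool.Agent.N254.SQ (IsForm Mon ver ver_prop ver_smul ver_ne_zero PointedFinite ptd_ne ptd_scale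
  ptd_xscale ptd_of_near ptd_near ptd_uniq ptd_prop ptd_exists ptd_ver ptd_curve ptd_const t_bend)
open Pool.Agent.U207.QC (hI xI idx_cases coverForm coverEqs Signs el el_h el_x el_hI el_ne el_smul
  GoodC OnV)
open scoped LinearAlgebra.Projectivization

section

variable {n N d c : ℕ} {m : Fin (N + 1) → Fin (n + 1) → ℕ}
  {S : Set (MvPolynomial (Fin (n + 1)) ℂ)} {P ℓ ℓ' : Fin c → MvPolynomial (Fin (N + 1)) ℂ}

theorem psi_ne (hg : GoodC n N d c m S P ℓ) {E : Type} [Field E] [Algebra ℂ E]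
    {x : Fin (n + 1) → E} (hx : x ≠ 0) : el ℓ' (ver m x) ≠ 0 :=
  el_ne (ver_ne_zero hg.mon hg.hd1 hx)

theorem psi_smul (hg : GoodC n N d c m S P ℓ) (hl : Signs ℓ ℓ') {E : Type} [Field E] [Algebra ℂ E]
    (s : E) (x : Fin (n + 1) → E) : el ℓ' (ver m (s • x)) = s ^ d • el ℓ' (ver m x) := by
  rw [ver_smul hg.mon, el_smul (hl.hom hg.homL)]

theorem psi_prop (hg : GoodC n N d c m S P ℓ) {E : Type} [Field E] [Algebra ℂ E] {s : E}
    {w x : Fin (n + 1) → E} (hw : w ≠ 0) (h : el ℓ' (ver m w) = s • el ℓ' (ver m x)) :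
    ∃ s' : E, w = s' • x := by
  refine ver_prop hg.mon hg.hd1 (c := s) hw ?_
  have h1 := congrArg (fun v => v ∘ hI N c) h
  simp only [el_hI] at h1
  rw [h1]
  funext j
  change s * el ℓ' (ver m x) (hI N c j) = s * ver m x j
  rw [el_h]

theorem el_value {E : Type} [Field E] [Algebra ℂ E] (hl : ∀ i, (ℓ i).IsHomogeneous 1)
    {cp : Place ℂ E} {x : Fin (N + 1) → ℂ} (hx : x ≠ 0) {f : Fin (N + 1) → E} (hf : f ≠ 0)
    (h : HasValue cp x f) : HasValue cp (el ℓ x) (el ℓ f) := by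
  obtain ⟨a, ha, hg⟩ := ptd_near hx hf h
  have h0 : ∀ j, Ge cp 0 ((a • f) j) := by
    intro j
    have := ((hg j).mono (by norm_num : (0 : ℤ) ≤ 1)).add (Ge.const (P := cp) (x j))
    rwa [sub_add_cancel] at this
  have h1 : ∀ l, Ge cp 1 (el ℓ (a • f) l - algebraMap ℂ E (el ℓ x l)) := by
    intro l
    rcases idx_cases l with ⟨j, rfl⟩ | ⟨i, rfl⟩
    · rw [el_h, el_h]
      exact hg j
    · rw [el_x, el_x]
      exact Pool.Agent.W603.LV.red_mvaeval cp h0 hg (ℓ i)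
  obtain ⟨h2, h3⟩ := ptd_of_near (el_ne hx) h1
  have h4 := ptd_scale h2 h3 (inv_ne_zero ha)
  rwa [el_smul hl, smul_smul, inv_mul_cancel₀ ha, one_smul] at h4

theorem psi_value (hg : GoodC n N d c m S P ℓ) (hl : Signs ℓ ℓ') {E : Type} [Field E] [Algebra ℂ E]
    {cp : Place ℂ E} {x : Fin (n + 1) → ℂ} (hx : x ≠ 0) {f : Fin (n + 1) → E} (hf : f ≠ 0)
    (h : HasValue cp x f) : HasValue cp (el ℓ' (ver m x)) (el ℓ' (ver m f)) :=
  el_value (hl.hom hg.homL) (ver_ne_zero hg.mon hg.hd1 hx) (ver_ne_zero hg.mon hg.hd1 hf)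
    (ptd_ver hg.mon hg.hd1 hx hf h)

theorem psi_map (hg : GoodC n N d c m S P ℓ) (hl : Signs ℓ ℓ') (E : Type) [Field E]
    [Algebra ℂ E] : ∃ Φ : ℙ E (Fin (n + 1) → E) → ℙ E (Fin (N + c + 1) → E),
      Function.Injective Φ ∧ ∀ (f : Fin (n + 1) → E) (hf : f ≠ 0),
        Φ (Projectivization.mk E f hf) =
          Projectivization.mk E (el ℓ' (ver m f)) (psi_ne hg hf) := by
  refine ⟨fun φ => Projectivization.mk E (el ℓ' (ver m φ.rep)) (psi_ne hg φ.rep_nonzero), ?_, ?_⟩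
  · intro φ ψ h
    have h : Projectivization.mk E (el ℓ' (ver m φ.rep)) (psi_ne hg φ.rep_nonzero) =
      Projectivization.mk E (el ℓ' (ver m ψ.rep)) (psi_ne hg ψ.rep_nonzero) := h
    rw [Projectivization.mk_eq_mk_iff'] at h
    obtain ⟨a, ha⟩ := h
    obtain ⟨c', hc'⟩ := psi_prop hg φ.rep_nonzero ha.symm
    rw [← φ.mk_rep, ← ψ.mk_rep, Projectivization.mk_eq_mk_iff']
    exact ⟨c', hc'.symm⟩
  · intro f hf
    change Projectivization.mk E (el ℓ' (ver m (Projectivization.mk E f hf).rep)) _ = _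
    obtain ⟨a, ha⟩ := Projectivization.exists_smul_eq_mk_rep E f hf
    rw [Projectivization.mk_eq_mk_iff']
    refine ⟨(a : E) ^ d, ?_⟩
    rw [← ha, Units.smul_def, psi_smul hg hl]

/-- the pointed maps in one sheet -/
theorem sheet_finite (hg : GoodC n N d c m S P ℓ) (hl : Signs ℓ ℓ') (h : PointedFinite S)
    {E : Type} [Field E] [Algebra ℂ E] [IsFF ℂ E] (cp : Place ℂ E) {y0 : Fin (N + c + 1) → ℂ}
    (hy0 : y0 ≠ 0) : {φ : ℙ E (Fin (N + c + 1) → E) | ∃ (x : Fin (n + 1) → E) (hx : x ≠ 0),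
        (∀ p ∈ S, aeval x p = 0) ∧ HasValue cp y0 (el ℓ' (ver m x)) ∧
        φ = Projectivization.mk E (el ℓ' (ver m x)) (psi_ne hg hx)}.Finite := by
  obtain ⟨Φ, hΦi, hΦ⟩ := psi_map hg hl E
  by_cases hne : ∃ x : Fin (n + 1) → E, x ≠ 0 ∧ HasValue cp y0 (el ℓ' (ver m x))
  · obtain ⟨x0, hx0, hv0⟩ := hne
    obtain ⟨z, hz, hzv⟩ := ptd_exists cp hx0
    have h3 := psi_value hg hl hz hx0 hzv
    obtain ⟨a, ha1⟩ := ptd_prop hy0 (ptd_uniq (psi_ne hg hx0) hv0 h3)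
    have ha0 : a ≠ 0 := by
      intro h0
      rw [h0, zero_smul] at ha1
      exact psi_ne hg hz ha1
    refine ((h E cp z hz).image Φ).subset ?_
    rintro φ ⟨x, hx, hxS, hv, rfl⟩
    obtain ⟨z', hz', hzv'⟩ := ptd_exists cp hx
    have h4 := psi_value hg hl hz' hx hzv'
    obtain ⟨a', ha'⟩ := ptd_prop hy0 (ptd_uniq (psi_ne hg hx) hv h4)
    obtain ⟨s, hs⟩ := psi_prop hg (ℓ' := ℓ') (w := z') (x := z) (s := a' * a⁻¹) hz' (by
      rw [ha', ha1, smul_smul, mul_assoc, inv_mul_cancel₀ ha0, mul_one])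
    have hs0 : s ≠ 0 := by
      intro h0
      rw [h0, zero_smul] at hs
      exact hz' hs
    have h5 := ptd_xscale hzv' s⁻¹
    rw [hs, smul_smul, inv_mul_cancel₀ hs0, one_smul] at h5
    exact ⟨Projectivization.mk E x hx, ⟨x, hx, hxS, h5, rfl⟩, hΦ x hx⟩
  · refine Set.Finite.subset Set.finite_empty ?_
    rintro φ ⟨x, hx, -, hv, -⟩
    exact hne ⟨x, hx, hv⟩

/-- a point over `v(V(S))` -/
theorem exists_psi (hg : GoodC n N d c m S P ℓ) {E : Type} [Field E] [Algebra ℂ E]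
    {y : Fin (N + c + 1) → E} (hyP : ∀ p ∈ coverEqs P, aeval y p = 0)
    (h : ∃ (x : Fin (n + 1) → E) (c₀ : E), x ≠ 0 ∧ c₀ ≠ 0 ∧ (∀ p ∈ S, aeval x p = 0) ∧
      y ∘ hI N c = c₀ • ver m x) : ∃ (ℓ' : Fin c → MvPolynomial (Fin (N + 1)) ℂ)
      (x : Fin (n + 1) → E) (s : E), Signs ℓ ℓ' ∧ x ≠ 0 ∧ s ≠ 0 ∧ (∀ p ∈ S, aeval x p = 0) ∧
        y = s • el ℓ' (ver m x) := by
  obtain ⟨ℓ', hl, hyl⟩ := hg.exists_signs (fun i => hyP _ ⟨i, rfl⟩) h
  obtain ⟨x, s, hx, hs, hxS, hyx⟩ := h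
  exact ⟨ℓ', x, s, hl, hx, hs, hxS, by rw [hyl, hyx, el_smul (hl.hom hg.homL)]⟩

/-- **Finiteness of pointed maps: the cover and the variety.** -/
theorem ptd_iff (hga : GoodA n N d c m S P ℓ) : PointedFinite (coverEqs P) ↔ PointedFinite S := by
  have hg := hga.toC
  constructor
  · intro h E _ _ _ cp x hx
    obtain ⟨Φ, hΦi, hΦ⟩ := psi_map hg (Signs.refl ℓ) E
    have hT := h E cp (el ℓ (ver m x)) (psi_ne hg hx)
    refine (hT.preimage hΦi.injOn).subset ?_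
    rintro φ ⟨f, hf, hfS, hv, rfl⟩
    exact ⟨el ℓ (ver m f), psi_ne hg hf, up_mem hg (Signs.refl ℓ) hf hfS,
      psi_value hg (Signs.refl ℓ) hx hf hv, hΦ f hf⟩
  · intro h E _ _ _ cp y0 hy0
    obtain ⟨A, hA⟩ := hga.alg
    have hT1 : (⋃ ℓ' ∈ {ℓ' | Signs ℓ ℓ'}, {φ : ℙ E (Fin (N + c + 1) → E) |
        ∃ (x : Fin (n + 1) → E) (hx : x ≠ 0), (∀ p ∈ S, aeval x p = 0) ∧
          HasValue cp y0 (el ℓ' (ver m x)) ∧
          φ = Projectivization.mk E (el ℓ' (ver m x)) (psi_ne hg hx)}).Finite :=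
      (signs_finite ℓ).biUnion fun ℓ' hl => sheet_finite hg hl h cp hy0
    by_contra hinf
    have hinf2 : {φ : ℙ E (Fin (N + c + 1) → E) | ∃ (f : Fin (N + c + 1) → E) (hf : f ≠ 0),
        (∀ p ∈ coverEqs P, aeval f p = 0) ∧ HasValue cp y0 f ∧
        pht ℂ f ≤ A * max (canDeg ℂ E) 0 ∧ φ = Projectivization.mk E f hf}.Infinite := by
      intro hfin
      apply hinf
      refine (hT1.union hfin).subset ?_
      rintro φ ⟨f, hf, hfA, hv, rfl⟩
      rcases hA E f hf hfA with h3 | h3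
      · exact Or.inr ⟨f, hf, hfA, hv, h3, rfl⟩
      · left
        obtain ⟨ℓ', x, s, hl, hx, hs, hxS, hfx⟩ := exists_psi hg hfA h3
        simp only [Set.mem_iUnion]
        refine ⟨ℓ', hl, x, hx, hxS, ?_, ?_⟩
        · have h4 := ptd_scale hf hv (inv_ne_zero hs)
          rwa [hfx, smul_smul, inv_mul_cancel₀ hs, one_smul] at h4
        · rw [Projectivization.mk_eq_mk_iff']
          exact ⟨s, hfx.symm⟩
    obtain ⟨y, hy, hyA, hyn⟩ := t_bend (N + c) (coverEqs P)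
      (Pool.Agent.U207.QC.covEqs_form hg.homP) E cp y0 _ hy0 hinf2
    rcases hA (RatFunc ℂ) y hy hyA with h3 | h3
    · rw [Pool.Agent.Y216.canDeg_ratFunc] at h3
      exact hyn (ptd_const hy (h3.trans (by norm_num)))
    · obtain ⟨ℓ', x, s, hl, hx, hs, hxS, hyx⟩ := exists_psi hg hyA h3
      refine ptd_curve hg.homS hx hxS ?_ h
      rintro ⟨a, z, hxz⟩
      apply hyn
      refine ⟨s * a ^ d, el ℓ' (ver m z), ?_⟩
      have e1 : x = a • (fun j => algebraMap ℂ (RatFunc ℂ) (z j)) := hxz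
      rw [hyx, e1, psi_smul hg hl, smul_smul]
      funext b
      rw [Pi.smul_apply, smul_eq_mul]
      congr 1
      have e2 : ver m (fun j => algebraMap ℂ (RatFunc ℂ) (z j)) =
          fun b => algebraMap ℂ (RatFunc ℂ) (ver m z b) := by
        funext b
        unfold ver
        rw [map_prod]
        simp only [map_pow]
      rw [e2]
      rcases idx_cases b with ⟨j, rfl⟩ | ⟨i, rfl⟩
      · rw [el_h, el_h]
      · rw [el_x, el_x]
        exact aeval_algebraMap_apply (R := ℂ) (RatFunc ℂ) (ver m z) (ℓ' i)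

end

end Pool.Agent.U207.QH
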