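import Pool.Agent.U207.QH.Tpl
import Pool.Agent.U207.QC.Tor

/-!
Project QH (helper207), part F: the construction, the types of exceptional sets.
-/

set_option autoImplicit false

namespace Pool.Agent.U207.QH

open MvPolynomial FF
open Pool.Agent.W603.LV (canDeg)
open Pool.Agent.W603.PV (pht)
open Pool.Agent.W602.GT (SubVar GeneralType coords)
open Pool.Agent.N254.SQ (IsForm OnAlgebraic OnBounded OnSpecial OnCurves Mon ver veronese t_num)
open Pool.Agent.U207.QC (hI xI coverForm coverEqs SmoothCover Signs onSheet OnTor Cl1 cl1_of cl1_tor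
  exc0_of covT_curves covT_special curves_one special_one el_hI el_x el_h GoodC exists_aux)

/-- the construction -/
theorem consA (n d : ℕ) (hn : 1 ≤ n) (hd : 3 ≤ d) :
    ∃ (N : ℕ) (m : Fin (N + 1) → Fin (n + 1) → ℕ), Mon n N d m ∧ 2 * n < N ∧
      ∀ c, (2 * (N + 1) ^ 3 + 6 * N + 5) ^ 2 ≤ c →
        ∀ S : Set (MvPolynomial (Fin (n + 1)) ℂ), (∀ p ∈ S, ∃ e ≤ d, p.IsHomogeneous e) →
          ∃ P ℓ : Fin c → MvPolynomial (Fin (N + 1)) ℂ, SmoothCover P ∧
            GoodA n N d c m S P ℓ := by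
  obtain ⟨N, m, hm, hN⟩ := t_num n d hn hd
  exact ⟨N, m, hm, hN, fun c hc S hS1 => exists_coverA hn hd hm hN S hS1 c hc⟩

section sheet

variable {n N d c : ℕ} {m : Fin (N + 1) → Fin (n + 1) → ℕ}
  {S : Set (MvPolynomial (Fin (n + 1)) ℂ)} {P ℓ : Fin c → MvPolynomial (Fin (N + 1)) ℂ}

/-- a point over `v(V(S))` is on a sheet -/
theorem sheet_of (hg : GoodC n N d c m S P ℓ) {L : Type} [Field L] [Algebra ℂ L]
    {y : Fin (N + c + 1) → L} (hyP : ∀ i, aeval y (coverForm P i) = 0)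
    (h : ∃ (x : Fin (n + 1) → L) (c₀ : L), x ≠ 0 ∧ c₀ ≠ 0 ∧ (∀ p ∈ S, aeval x p = 0) ∧
      y ∘ hI N c = c₀ • ver m x) :
    ∃ (ℓ' : Fin c → MvPolynomial (Fin (N + 1)) ℂ) (x : Fin (n + 1) → L) (c₀ : L), Signs ℓ ℓ' ∧
      x ≠ 0 ∧ c₀ ≠ 0 ∧ (∀ p ∈ S, aeval x p = 0) ∧ y ∘ hI N c = c₀ • veronese m x ∧
      ∀ i, y (xI N c i) = c₀ * aeval (veronese m x) (ℓ' i) := by
  obtain ⟨ℓ', hl, hyl⟩ := hg.exists_signs hyP h
  obtain ⟨x, s, hx, hs, hxS, hyx⟩ := h
  refine ⟨ℓ', x, s, hl, hx, hs, hxS, hyx, fun i => ?_⟩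
  have h1 := congrFun hyl (xI N c i)
  rw [el_x, hyx, Pool.Agent.N254.SQ.aeval_scale (hl.hom hg.homL i), pow_one] at h1
  exact h1

/-- algebraic curves in the cover -/
theorem alg_sheet (hga : GoodA n N d c m S P ℓ) :
    ∃ A : ℕ, ∀ (E : Type) [Field E] [Algebra ℂ E] [IsFF ℂ E] (y : Fin (N + c + 1) → E), y ≠ 0 →
      (∀ i, aeval y (coverForm P i) = 0) → pht ℂ y ≤ A * max (canDeg ℂ E) 0 ∨
        ∃ (ℓ' : Fin c → MvPolynomial (Fin (N + 1)) ℂ) (x : Fin (n + 1) → E) (c₀ : E), Signs ℓ ℓ' ∧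
          x ≠ 0 ∧ c₀ ≠ 0 ∧ (∀ p ∈ S, aeval x p = 0) ∧ y ∘ hI N c = c₀ • veronese m x ∧
          ∀ i, y (xI N c i) = c₀ * aeval (veronese m x) (ℓ' i) := by
  obtain ⟨A, hA⟩ := hga.alg
  refine ⟨A, fun E _ _ _ y hy hyP => ?_⟩
  rcases hA E y hy (by rintro _ ⟨i, rfl⟩; exact hyP i) with h1 | h1
  · exact Or.inl h1
  · exact Or.inr (sheet_of hga.toC hyP h1)

/-- subvarieties of the cover -/
theorem sub_sheet (hg : GoodC n N d c m S P ℓ) (L : Type) [Field L] [Algebra ℂ L] (w : ℕ)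
    (y : Fin (N + c + 1) → L) (hw : 1 ≤ w) (hy : SubVar (coverForm P) L w y) :
    GeneralType ℂ L w ∨
      ∃ (ℓ' : Fin c → MvPolynomial (Fin (N + 1)) ℂ) (x : Fin (n + 1) → L) (c₀ : L), Signs ℓ ℓ' ∧
        x ≠ 0 ∧ c₀ ≠ 0 ∧ (∀ p ∈ S, aeval x p = 0) ∧ y ∘ hI N c = c₀ • veronese m x ∧
        ∀ i, y (xI N c i) = c₀ * aeval (veronese m x) (ℓ' i) := by
  have h2 : SubVar (fun p : coverEqs P => (p : MvPolynomial (Fin (N + c + 1)) ℂ)) L w y := by
    refine ⟨hy.ne, ?_, hy.gen, hy.dim⟩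
    rintro ⟨_, i, rfl⟩
    exact hy.mem i
  rcases hg.special L w y hw h2 with h1 | h1
  · exact Or.inl h1
  · exact Or.inr (sheet_of hg hy.mem h1)

end sheet

/-! ### types of exceptional sets of projective varieties -/

theorem clA_of_cl1 {J : ∀ n : ℕ, Set (MvPolynomial (Fin (n + 1)) ℂ) →
    MvPolynomial (Fin (n + 1)) ℂ → Prop} (h : Cl1 J) : ClA J where
  pow := h.pow
  congr := h.congr
  zero := h.zero
  tr := fun n N d c m S P ℓ hg G hG => h.tr n N d c m S P ℓ hg.toC G hG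

theorem clA_tor (𝒯' : ∀ g : ℕ, AddSubgroup (Fin g → ℂ) → Prop) : ClA (fun _ S G => OnTor 𝒯' S G) :=
  clA_of_cl1 (cl1_tor 𝒯')

theorem clA_curves : ClA (fun _ S G => OnCurves S G) := by
  have h1 := cl1_of (exc0_of Pool.Agent.N254.SQ.t_qcurv) covT_curves
  simp only [curves_one] at h1
  exact clA_of_cl1 h1

theorem clA_special : ClA (fun _ S G => OnSpecial S G) := by
  have h1 := cl1_of (exc0_of (Pool.Agent.N254.SQ.t_qspec Pool.Agent.N254.SQ.t_cent)) covT_special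
  simp only [special_one] at h1
  exact clA_of_cl1 h1

theorem exc0_bounded : Pool.Agent.U207.QC.Exc0
    (fun _ S T G => Pool.Agent.N254.SQ.OnBoundedQ S T G) :=
  exc0_of (Pool.Agent.N254.SQ.t_qbnd Pool.Agent.N254.SQ.t_cent Pool.Agent.N254.SQ.t_hform)

theorem exc0_degrees : Pool.Agent.U207.QC.Exc0
    (fun _ S T G => Pool.Agent.N254.SQ.OnDegreesQ S T G) :=
  exc0_of (Pool.Agent.N254.SQ.t_qdeg Pool.Agent.N254.SQ.t_cent Pool.Agent.N254.SQ.t_hform)

theorem clA_bounded : ClA (fun _ S G => OnBounded S G) := by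
  have h1 := clA_of exc0_bounded covA_bounded
  simp only [bounded_one] at h1
  exact h1

theorem clA_algebraic : ClA (fun _ S G => OnAlgebraic S G) where
  pow := by
    intro n S G k _ hk
    unfold OnAlgebraic
    simp only [map_pow, ne_eq, pow_eq_zero_iff (show k ≠ 0 by omega)]
  congr := by
    intro n S S' h G
    unfold OnAlgebraic
    simp only [h]
    exact fun h => h
  zero := by
    intro S G _ _
    refine ⟨0, fun E _ _ _ y hy _ _ => ?_⟩
    have h1 : ∀ P : Place ℂ E, Pool.Agent.W603.PV.pord P y = P.ord (y 0) := by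
      intro P
      have h0 : y 0 ≠ 0 := by
        intro h
        apply hy
        funext j
        rw [show j = 0 from Fin.ext (by omega)]
        exact h
      obtain ⟨j, hj, h⟩ := Pool.Agent.W603.PV.exists_pord P ⟨0, h0⟩
      rw [← h, show j = 0 from Fin.ext (by omega)]
    have h2 : pht ℂ y = 0 := by
      unfold pht
      simp only [h1, Pool.Agent.W603.LV.sum_ord, neg_zero]
    rw [h2, Nat.cast_zero, zero_mul]
  tr := fun n N d c m S P ℓ hg G hG => trA_algebraic n N d c m S P ℓ hg G hG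

end Pool.Agent.U207.QH
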