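import Pool.Agent.U207.QH.TrA

/-!
Project QH (helper207), part E: from the exceptional sets of the covers to all varieties, for types of
exceptional sets whose transfer needs the control of algebraic curves (the proofs are those of
QC/Imp.lean and QC/Tpl.lean).
-/

set_option autoImplicit false

namespace Pool.Agent.U207.QH

open MvPolynomial Metric Filter Topology FF
open Pool.Agent.N254.SQ (IsForm Fm Idl Gen Eqs Component Cls Mon ver pull NotIn LogGeneral
  Lifts Good GoodAlg OnSpecialQ OnCurvesQ OnDiscsQ OnSpecial aeval_pull pull_hom aeval_scale t_num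
  t_comp qi_same qi_no t_cent t_versurj qe_finite)
open Pool.Agent.W602.GT (SubVar GeneralType coords)
open Pool.Agent.U207.QC (hI xI idx_cases coverEqs coverForm cover_hom SmoothCover Signs Signs.refl
  onSheet sbl sbl_form sbl_rename el el_h el_x el_hI el_smul aeval_sbl Exc0 exc0_of CovT ForC ClsC
  onV_ver sheet_iff sub_el sub_fun covT_special cN onSheet_one exists_root lifts_one ren_one tr_one
  clsC_one gen_of_sub sub_of_gen notin_one log_one special_one form_one covEqs_form qf_comp0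
  forw_imp forw_eq GoodC Cl1)

/-- QIMP for the covers -/
theorem imp_covA {J : ∀ n : ℕ, Set (MvPolynomial (Fin (n + 1)) ℂ) →
      Set (MvPolynomial (Fin (n + 1)) ℂ) → MvPolynomial (Fin (n + 1)) ℂ → Prop} (hJ : Exc0 J)
    (hT : CovA J) {C : ∀ n : ℕ, Set (Set (MvPolynomial (Fin (n + 1)) ℂ))} (hC : Cls C)
    {E : ℕ → Set ℕ} (hE : ∀ N, (E N).Infinite)
    (hFor : ForC E fun N c P => ∀ T ∈ C N, ∀ (L : Type) [Field L] [Algebra ℂ L] (w : ℕ)
      (y : Fin (N + c + 1) → L), 1 ≤ w →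
        SubVar (fun p : coverEqs P => (p : MvPolynomial (Fin (N + c + 1)) ℂ)) L w y →
        NotIn (rename (hI N c) '' T) y → LogGeneral (rename (hI N c) '' T) L w y →
        ¬ Component (J (N + c) (coverEqs P) (rename (hI N c) '' T)) y)
    (n : ℕ) (T : Set (MvPolynomial (Fin (n + 1)) ℂ)) (hTC : T ∈ C n) (L : Type) [Field L]
    [Algebra ℂ L] (w : ℕ) (y : Fin (n + 1) → L) (hw : 1 ≤ w) (hy : Gen L w y) (hyT : NotIn T y)
    (hlog : LogGeneral T L w y) : ∃ G, IsForm G ∧ aeval y G ≠ 0 ∧ J n (Eqs y) T G := by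
  by_contra hcon
  push Not at hcon
  have hn : 1 ≤ n := by
    rcases Nat.eq_zero_or_pos n with h0 | h0
    · subst h0
      exact (qi_no hw hy).elim
    · exact h0
  obtain ⟨S₀, d, hSame, hd3, hd⟩ := qi_same (Eqs y) (fun p hp => hp.1)
  obtain ⟨N, m, hm, hN⟩ := t_num n d hn hd3
  obtain ⟨c, hcE, hc⟩ := (hE N).exists_gt (cN N)
  obtain ⟨P, ℓ, hsm, hga⟩ := exists_coverA hn hd3 hm hN S₀ hd c hc.le
  have hg := hga.toC
  have hFor' := hFor N c P hcE hg.homP hsm
  have hd1 : 1 ≤ d := by omega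
  obtain ⟨T', hT', hL⟩ := hC.lift n N d m hm hd1 T hTC
  have hFor2 := hFor' T' hT'
  have hT'' : ∀ H ∈ rename (hI N c) '' T', IsForm H := by
    rintro _ ⟨H, hH, rfl⟩
    obtain ⟨e, he⟩ := hC.form N T' hT' H hH
    exact ⟨e, he.rename_isHomogeneous⟩
  obtain ⟨T₂, hT₂⟩ : ∃ T₂, T₂ = rename (hI N c) '' T' := ⟨_, rfl⟩
  rw [← hT₂] at hT'' hFor2
  have hI0 := hJ.idl (N + c) (coverEqs P) T₂
  have hIA : ∀ i, J (N + c) (coverEqs P) T₂ (coverForm P i) := fun i =>
    hJ.van (N + c) (coverEqs P) T₂ _ ⟨2, cover_hom hg.homP i⟩ fun L _ _ x hx => hx _ ⟨i, rfl⟩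
  have hyS : ∀ p ∈ S₀, aeval y p = 0 := (hSame L y).2 fun q hq => hq.2
  have hvy := onV_ver hg hy.ne hyS
  obtain ⟨y₁, hy₁⟩ : ∃ y₁, y₁ = el ℓ (ver m y) := ⟨_, rfl⟩
  have hvan : ∀ G, Fm G → J (N + c) (coverEqs P) T₂ G → aeval y₁ G = 0 := by
    intro G hG hIG
    rw [hT₂] at hIG
    have h1 : J n S₀ T (pull m (sbl ℓ G)) :=
      (hT n N d c m S₀ P ℓ hga T T' hL G hG).1 hIG ℓ (Signs.refl ℓ)
    have h2 : J n (Eqs y) T (pull m (sbl ℓ G)) :=
      hJ.mono n S₀ (Eqs y) T (fun Ω _ _ x hx => (hSame Ω x).2 hx) _ h1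
    by_contra h3
    rw [hy₁, ← aeval_sbl, ← aeval_pull] at h3
    obtain ⟨e, he⟩ := hG
    exact hcon _ ⟨d * e, pull_hom hm (sbl_form hg.homL he)⟩ h3 h2
  have hsub₁ : SubVar (fun p : coverEqs P => (p : MvPolynomial (Fin (N + c + 1)) ℂ)) L w y₁ := by
    rw [hy₁]
    refine sub_el hg hvy ?_ hy.dim
    have h1 := Pool.Agent.N254.SQ.coords_ver hm hd1 y hy.ne (1 : L) one_ne_zero
    rw [one_smul] at h1
    rw [h1, hy.gen]
  obtain ⟨hN1, hL1⟩ := sheet_iff (w := w) hg hL hy.ne hyS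
  rw [← hy₁, ← hT₂] at hN1 hL1
  have hN1' := hN1.2 hyT
  have hL1' := hL1.2 hlog
  rcases t_comp (N + c) (J (N + c) (coverEqs P) T₂) hI0 L w y₁ ⟨hsub₁.ne, hsub₁.gen, hsub₁.dim⟩
    hvan with ⟨H, hH, hH0, hHI⟩ |
    ⟨L', iF, iA, w', y', hgen, hw', hI', hcl, ⟨G, hG, hG0, hG1⟩, hcomp⟩
  · exact hFor2 L w y₁ hw hsub₁ hN1' hL1' ⟨hvan, H, hH, hH0, hHI⟩
  · have hyP : ∀ i, aeval y' (coverForm P i) = 0 := fun i =>
      hI' _ ⟨2, cover_hom hg.homP i⟩ (hIA i)
    have hsub : SubVar (fun p : coverEqs P => (p : MvPolynomial (Fin (N + c + 1)) ℂ)) L' w' y' := by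
      refine ⟨hgen.ne, ?_, hgen.gen, hgen.dim⟩
      rintro ⟨_, i, rfl⟩
      exact hyP i
    have hco : Component (J (N + c) (coverEqs P) T₂) y' := ⟨hI', hcomp⟩
    rcases hg.special L' w' y' hw' hsub with h | ⟨x, s, hx, hs, hxS, hyx⟩
    · have hN2 : NotIn T₂ y' := by
        obtain ⟨H, hH, hH0⟩ := hN1'
        exact ⟨H, hH, fun h0 => hH0 (hcl H (hT'' H hH) h0)⟩
      exact hFor2 L' w' y' hw' hsub hN2 (t_cent.general _ T₂ L' w' y' h) hco
    · obtain ⟨ℓ', hsg, hyl⟩ := hg.exists_signs hyP ⟨x, s, hx, hs, hxS, hyx⟩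
      have hEx : ∀ F, IsForm F → aeval y F = 0 → aeval x F = 0 := fun F hF hF0 =>
        (hSame L' x).1 hxS F ⟨hF, hF0⟩
      -- the signs are those of `ℓ`
      have hyl' : y' = el ℓ (y' ∘ hI N c) := by
        funext l
        rcases idx_cases l with ⟨j, rfl⟩ | ⟨i, rfl⟩
        · rw [el_h]
          rfl
        · rw [el_x]
          have h1 := congrFun hyl (xI N c i)
          rw [el_x] at h1
          rcases hsg i with h2 | h2
          · rw [h1, h2]
          · -- the linear form vanishes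
            have hform : IsForm (X (xI N c i) + rename (hI N c) (ℓ i) :
                MvPolynomial (Fin (N + c + 1)) ℂ) :=
              ⟨1, (isHomogeneous_X ℂ _).add (hg.homL i).rename_isHomogeneous⟩
            have h3 : aeval y' (X (xI N c i) + rename (hI N c) (ℓ i)) = 0 := by
              rw [map_add, aeval_X, aeval_rename, h1, h2, map_neg, neg_add_cancel]
            have h4 := hcl _ hform h3
            rw [map_add, aeval_X, aeval_rename, hy₁, el_x, el_hI, ← two_mul] at h4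
            have h5 : aeval (ver m y) (ℓ i) = 0 := by
              have h6 : (2 : L) ≠ 0 := by
                have := charZero_of_injective_algebraMap (algebraMap ℂ L).injective
                exact two_ne_zero
              exact (mul_eq_zero.1 h4).resolve_left h6
            rw [← aeval_pull] at h5
            have h7 := hEx _ ⟨d * 1, pull_hom hm (hg.homL i)⟩ h5
            rw [aeval_pull] at h7
            have h8 : aeval (y' ∘ hI N c) (ℓ i) = 0 := by
              rw [hyx, aeval_scale (hg.homL i), h7, mul_zero]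
            rw [h1, h2, map_neg, h8, neg_zero]
      obtain ⟨e, he⟩ := hG
      apply hG1
      rw [hyl', hyx, el_smul hg.homL, aeval_scale he, ← aeval_sbl, ← aeval_pull,
        hEx _ ⟨d * e, pull_hom hm (sbl_form hg.homL he)⟩ (by
          rw [aeval_pull, aeval_sbl, ← hy₁]
          exact hG0), mul_zero]

/-- QEQ for the covers -/
theorem eq_covA {J : ∀ n : ℕ, Set (MvPolynomial (Fin (n + 1)) ℂ) →
      Set (MvPolynomial (Fin (n + 1)) ℂ) → MvPolynomial (Fin (n + 1)) ℂ → Prop} (hJ : Exc0 J)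
    (hT : CovA J) {C : ∀ n : ℕ, Set (Set (MvPolynomial (Fin (n + 1)) ℂ))} (hC : Cls C)
    {E : ℕ → Set ℕ} (hE : ∀ N, (E N).Infinite)
    (hFor : ForC E fun N c P => ∀ T ∈ C N, ∀ G, IsForm G →
      J (N + c) (coverEqs P) (rename (hI N c) '' T) G →
      OnSpecialQ (coverEqs P) (rename (hI N c) '' T) G)
    (n : ℕ) (T : Set (MvPolynomial (Fin (n + 1)) ℂ)) (hTC : T ∈ C n) (L : Type) [Field L]
    [Algebra ℂ L] (w : ℕ) (y : Fin (n + 1) → L) (hw : 1 ≤ w) (hgen : Gen L w y)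
    (hnot : NotIn T y) (hex : ∃ G, IsForm G ∧ aeval y G ≠ 0 ∧ J n (Eqs y) T G) :
    LogGeneral T L w y := by
  obtain ⟨G, hG, hGy, hGP⟩ := hex
  have hn : 1 ≤ n := by
    rcases Nat.eq_zero_or_pos n with h0 | h0
    · subst h0
      exact (qi_no hw hgen).elim
    · exact h0
  obtain ⟨S₀, d, hd3, hd, h1, h2⟩ := qe_finite y
  obtain ⟨N, m, hm, hN⟩ := t_num n d hn hd3
  obtain ⟨c, hcE, hc⟩ := (hE N).exists_gt (cN N)
  obtain ⟨P, ℓ, hsm, hga⟩ := exists_coverA hn hd3 hm hN S₀ hd c hc.le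
  have hg := hga.toC
  obtain ⟨T', hT', hlift⟩ := hC.lift n N d m hm hg.hd1 T hTC
  obtain ⟨e, he⟩ := id hG
  obtain ⟨G₀, hG₀, hG₀F⟩ := t_versurj n N d m hm e (G ^ d) (by
    have := he.pow d
    rwa [mul_comm] at this)
  have hpull : pull m G₀ = G ^ d := hG₀F
  have hGd : J n (Eqs y) T (G ^ d) :=
    (Pool.Agent.Results.MP_2a5ae2_ag.SmoothHypersurfacesSuffice.idl_pow (hJ.idl n (Eqs y) T) hG d
      hg.hd1).2 hGP
  have h3 : J n S₀ T (G ^ d) := hJ.mono n (Eqs y) S₀ T (fun L' _ _ x hx => h1 L' x hx) _ hGd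
  have hren : (rename (hI N c) G₀).IsHomogeneous e := hG₀.rename_isHomogeneous
  have h4 : J (N + c) (coverEqs P) (rename (hI N c) '' T') (rename (hI N c) G₀) := by
    rw [hT n N d c m S₀ P ℓ hga T T' hlift _ ⟨e, hren⟩]
    intro ℓ' _
    rw [sbl_rename, hpull]
    exact h3
  have h5 := hFor N c P hcE hg.homP hsm T' hT' _ ⟨e, hren⟩ h4
  have h6 : OnSpecialQ S₀ T (G ^ d) := by
    have := (covT_special n N d c m S₀ P ℓ hg T T' hlift _ ⟨e, hren⟩).1 h5 ℓ (Signs.refl ℓ)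
    rwa [sbl_rename, hpull] at this
  have h7 : OnSpecialQ (Eqs y) T (G ^ d) :=
    Pool.Agent.N254.SQ.Exc.mono (Pool.Agent.N254.SQ.t_qspec t_cent) n S₀ (Eqs y) T
      (fun L' _ _ x hx => h2 L' x hx) _ h6
  rcases h7 L w y hw ⟨hgen.ne, fun p => p.2.2, hgen.gen, hgen.dim⟩ hnot with h8 | h8
  · exact h8
  · exfalso
    rw [map_pow] at h8
    exact hGy (eq_zero_of_pow_eq_zero h8)

/-- the transfer for projective varieties -/
theorem tr_oneA {J : ∀ n : ℕ, Set (MvPolynomial (Fin (n + 1)) ℂ) →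
      Set (MvPolynomial (Fin (n + 1)) ℂ) → MvPolynomial (Fin (n + 1)) ℂ → Prop} (hT : CovA J)
    {n N d c : ℕ} {m : Fin (N + 1) → Fin (n + 1) → ℕ} {S : Set (MvPolynomial (Fin (n + 1)) ℂ)}
    {P ℓ : Fin c → MvPolynomial (Fin (N + 1)) ℂ} (hg : GoodA n N d c m S P ℓ)
    {G : MvPolynomial (Fin (N + c + 1)) ℂ} (hG : IsForm G) :
    J (N + c) (coverEqs P) {1} G ↔ ∀ ℓ', Signs ℓ ℓ' → J n S {1} (onSheet m ℓ' G) := by
  have h1 := hT n N d c m S P ℓ hg {1} {1} (lifts_one m) G hG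
  rw [ren_one] at h1
  exact h1

/-! ### one type of exceptional sets, projective varieties -/

section one

variable {J : ∀ n : ℕ, Set (MvPolynomial (Fin (n + 1)) ℂ) →
      Set (MvPolynomial (Fin (n + 1)) ℂ) → MvPolynomial (Fin (n + 1)) ℂ → Prop}

/-- general type implies a small exceptional set, for all projective varieties -/
theorem one_halfA (hJ : Exc0 J) (hT : CovA J) {E : ℕ → Set ℕ} (hE : ∀ N, (E N).Infinite) :
    (∀ (n : ℕ) (L : Type) [Field L] [Algebra ℂ L] (w : ℕ) (y : Fin (n + 1) → L), 1 ≤ w →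
      SubVar (fun p : (∅ : Set (MvPolynomial (Fin (n + 1)) ℂ)) =>
        (p : MvPolynomial (Fin (n + 1)) ℂ)) L w y → GeneralType ℂ L w →
          ∃ G : MvPolynomial (Fin (n + 1)) ℂ, IsForm G ∧ aeval y G ≠ 0 ∧ J n (Eqs y) {1} G) ↔
    ∀ (N c : ℕ) (P : Fin c → MvPolynomial (Fin (N + 1)) ℂ), c ∈ E N →
      (∀ i, (P i).IsHomogeneous 2) → SmoothCover P →
      ∀ (L : Type) [Field L] [Algebra ℂ L] (w : ℕ) (y : Fin (N + c + 1) → L), 1 ≤ w →
        SubVar (coverForm P) L w y → GeneralType ℂ L w →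
          ¬ Component (J (N + c) (coverEqs P) {1}) y := by
  constructor
  · intro h3 N c P _ hP _ L _ _ w y hw hy hgt hcomp
    refine forw_imp hJ (N + c) {1} ?_ (coverEqs P) L w y hw (gen_of_sub hy) (notin_one y)
      ((log_one hy.ne w).2 hgt) hcomp
    intro L _ _ w y hw hy _ hlg
    exact h3 (N + c) L w y hw (sub_of_gen hy) ((log_one hy.ne w).1 hlg)
  · intro h n L _ _ w y hw hy hgt
    refine imp_covA hJ hT clsC_one.cls hE ?_ n {1} rfl L w y hw (gen_of_sub hy) (notin_one y)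
      ((log_one hy.ne w).2 hgt)
    intro N c P hc hP hsm T hT L _ _ w y hw hy hn hlg hcomp
    rw [Set.mem_singleton_iff] at hT
    subst hT
    rw [ren_one] at hlg hcomp
    exact h N c P hc hP hsm L w y hw (sub_fun hy) ((log_one hy.ne w).1 hlg) hcomp

/-- general type if and only if the exceptional set is small, for all projective varieties -/
theorem one_iffA (hJ : Exc0 J) (hT : CovA J) {E : ℕ → Set ℕ} (hE : ∀ N, (E N).Infinite) :
    (∀ (n : ℕ) (L : Type) [Field L] [Algebra ℂ L] (w : ℕ) (y : Fin (n + 1) → L), 1 ≤ w →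
      SubVar (fun p : (∅ : Set (MvPolynomial (Fin (n + 1)) ℂ)) =>
        (p : MvPolynomial (Fin (n + 1)) ℂ)) L w y → (GeneralType ℂ L w ↔
          ∃ G : MvPolynomial (Fin (n + 1)) ℂ, IsForm G ∧ aeval y G ≠ 0 ∧ J n (Eqs y) {1} G)) ↔
    ∀ (N c : ℕ) (P : Fin c → MvPolynomial (Fin (N + 1)) ℂ), c ∈ E N →
      (∀ i, (P i).IsHomogeneous 2) → SmoothCover P →
      (∀ G, IsForm G → (J (N + c) (coverEqs P) {1} G ↔ OnSpecial (coverEqs P) G)) ∧
      ∀ (L : Type) [Field L] [Algebra ℂ L] (w : ℕ) (y : Fin (N + c + 1) → L), 1 ≤ w →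
        SubVar (coverForm P) L w y → GeneralType ℂ L w →
          ¬ Component (J (N + c) (coverEqs P) {1}) y := by
  have hS := exc0_of (Pool.Agent.N254.SQ.t_qspec Pool.Agent.N254.SQ.t_cent)
  constructor
  · intro h3 N c P hc hP hsm
    refine ⟨fun G hG => ?_, (one_halfA hJ hT hE).1 (fun n L _ _ w y hw hy =>
      (h3 n L w y hw hy).1) N c P hc hP hsm⟩
    have key : ∀ (L : Type) [Field L] [Algebra ℂ L] (w : ℕ) (y : Fin (N + c + 1) → L), 1 ≤ w →
        Gen L w y → NotIn {1} y →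
        (LogGeneral {1} L w y ↔ ∃ G, IsForm G ∧ aeval y G ≠ 0 ∧ J (N + c) (Eqs y) {1} G) := by
      intro L _ _ w y hw hy _
      rw [log_one hy.ne, h3 (N + c) L w y hw (sub_of_gen hy)]
    have h1 := forw_eq hS hJ (N + c) _ (form_one (N + c)) key (coverEqs P) (covEqs_form hP) G hG
    rwa [special_one] at h1
  · intro h n L _ _ w y hw hy
    refine ⟨(one_halfA hJ hT hE).2 (fun N c P hc hP hsm => (h N c P hc hP hsm).2) n L w y hw hy, ?_⟩
    rintro ⟨G, hG, hGy, hGc⟩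
    rw [← log_one hy.ne w]
    refine eq_covA hJ hT clsC_one.cls hE (fun N c P hc hP hsm T hT G hG hcc => ?_)
      n {1} rfl L w y hw (gen_of_sub hy) (notin_one y) ⟨G, hG, hGy, hGc⟩
    rw [Set.mem_singleton_iff] at hT
    subst hT
    rw [ren_one] at hcc ⊢
    rw [special_one]
    exact ((h N c P hc hP hsm).1 G hG).1 hcc

/-- log general type implies a small exceptional set, for all quasi-projective varieties of a class -/
theorem quasi_halfA (hJ : Exc0 J) (hT : CovA J)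
    {C : ∀ n : ℕ, Set (Set (MvPolynomial (Fin (n + 1)) ℂ))} (hC : ClsC C)
    {E : ℕ → Set ℕ} (hE : ∀ N, (E N).Infinite) :
    (∀ n : ℕ, ∀ T ∈ C n, ∀ (L : Type) [Field L] [Algebra ℂ L] (w : ℕ) (y : Fin (n + 1) → L),
      1 ≤ w → SubVar (fun p : (∅ : Set (MvPolynomial (Fin (n + 1)) ℂ)) =>
        (p : MvPolynomial (Fin (n + 1)) ℂ)) L w y → NotIn T y → LogGeneral T L w y →
          ∃ G : MvPolynomial (Fin (n + 1)) ℂ, IsForm G ∧ aeval y G ≠ 0 ∧ J n (Eqs y) T G) ↔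
    ∀ (N c : ℕ) (P : Fin c → MvPolynomial (Fin (N + 1)) ℂ), c ∈ E N →
      (∀ i, (P i).IsHomogeneous 2) → SmoothCover P → ∀ T ∈ C N,
      ∀ (L : Type) [Field L] [Algebra ℂ L] (w : ℕ) (y : Fin (N + c + 1) → L), 1 ≤ w →
        SubVar (coverForm P) L w y → NotIn (rename (hI N c) '' T) y →
          LogGeneral (rename (hI N c) '' T) L w y →
          ¬ Component (J (N + c) (coverEqs P) (rename (hI N c) '' T)) y := by
  constructor
  · intro h3 N c P _ hP _ T hT L _ _ w y hw hy hn hgt hcomp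
    refine forw_imp hJ (N + c) _ ?_ (coverEqs P) L w y hw (gen_of_sub hy) hn hgt hcomp
    intro L _ _ w y hw hy hn hlg
    exact h3 (N + c) _ (hC.ren N c T hT) L w y hw (sub_of_gen hy) hn hlg
  · intro h n T hTC L _ _ w y hw hy hn hgt
    refine imp_covA hJ hT hC.cls hE ?_ n T hTC L w y hw (gen_of_sub hy) hn hgt
    intro N c P hc hP hsm T hT L _ _ w y hw hy hn hlg hcomp
    exact h N c P hc hP hsm T hT L w y hw (sub_fun hy) hn hlg hcomp

end one

/-! ### two types of exceptional sets -/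

/-- a type of exceptional sets of projective varieties -/
structure ClA (J : ∀ n : ℕ, Set (MvPolynomial (Fin (n + 1)) ℂ) →
    MvPolynomial (Fin (n + 1)) ℂ → Prop) : Prop where
  pow : ∀ (n : ℕ) (S : Set (MvPolynomial (Fin (n + 1)) ℂ)) (G : MvPolynomial (Fin (n + 1)) ℂ)
    (k : ℕ), IsForm G → 1 ≤ k → (J n S (G ^ k) ↔ J n S G)
  congr : ∀ (n : ℕ) (S S' : Set (MvPolynomial (Fin (n + 1)) ℂ)),
    (∀ (L : Type) [Field L] [Algebra ℂ L] (x : Fin (n + 1) → L),
      (∀ p ∈ S, aeval x p = 0) ↔ ∀ p ∈ S', aeval x p = 0) → ∀ G, J n S G → J n S' G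
  zero : ∀ (S : Set (MvPolynomial (Fin (0 + 1)) ℂ)) (G : MvPolynomial (Fin (0 + 1)) ℂ),
    (∀ p ∈ S, IsForm p) → IsForm G → J 0 S G
  tr : ∀ (n N d c : ℕ) (m : Fin (N + 1) → Fin (n + 1) → ℕ)
    (S : Set (MvPolynomial (Fin (n + 1)) ℂ)) (P ℓ : Fin c → MvPolynomial (Fin (N + 1)) ℂ),
    GoodA n N d c m S P ℓ → ∀ G, IsForm G →
      (J (N + c) (coverEqs P) G ↔ ∀ ℓ', Signs ℓ ℓ' → J n S (onSheet m ℓ' G))

theorem clA_of {J : ∀ n : ℕ, Set (MvPolynomial (Fin (n + 1)) ℂ) →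
      Set (MvPolynomial (Fin (n + 1)) ℂ) → MvPolynomial (Fin (n + 1)) ℂ → Prop} (hJ : Exc0 J)
    (hT : CovA J) : ClA (fun n S G => J n S {1} G) where
  pow := fun n S G k hG hk =>
    Pool.Agent.Results.MP_2a5ae2_ag.SmoothHypersurfacesSuffice.idl_pow (hJ.idl n S {1}) hG k hk
  congr := fun n S S' h G hG => hJ.mono n S S' {1} (fun L _ _ x hx => (h L x).2 hx) G hG
  zero := by
    intro S G hS hG
    refine hJ.coord 0 S {1} G hG fun j => ?_
    obtain ⟨e, he⟩ := hG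
    by_contra hcon
    obtain ⟨L, iF, iA, w, y, hw, hgen, -, -, -, -⟩ :=
      qf_comp0 hJ hS (form_one 0) (he.mul (isHomogeneous_X _ j)) (by omega) hcon
    exact qi_no hw hgen
  tr := fun _ _ _ _ _ _ _ _ hg _ hG => tr_oneA hT hg hG

section two

variable {I J : ∀ n : ℕ, Set (MvPolynomial (Fin (n + 1)) ℂ) →
    MvPolynomial (Fin (n + 1)) ℂ → Prop}

/-- the exceptional set of the variety in terms of that of the cover -/
theorem ClA.base (hI : ClA I) {n N d c : ℕ} {m : Fin (N + 1) → Fin (n + 1) → ℕ}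
    {S : Set (MvPolynomial (Fin (n + 1)) ℂ)} {P ℓ : Fin c → MvPolynomial (Fin (N + 1)) ℂ}
    (hg : GoodA n N d c m S P ℓ) {G : MvPolynomial (Fin (n + 1)) ℂ} (hG : IsForm G)
    {G₀ : MvPolynomial (Fin (N + 1)) ℂ} (hG₀ : IsForm G₀) (h : pull m G₀ = G ^ d) :
    I (N + c) (coverEqs P) (rename (Pool.Agent.U207.QC.hI N c) G₀) ↔ I n S G := by
  have h1 : IsForm (rename (Pool.Agent.U207.QC.hI N c) G₀) := by
    obtain ⟨e, he⟩ := hG₀
    exact ⟨e, he.rename_isHomogeneous⟩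
  have h2 : ∀ ℓ' : Fin c → MvPolynomial (Fin (N + 1)) ℂ,
      onSheet m ℓ' (rename (Pool.Agent.U207.QC.hI N c) G₀) = G ^ d := by
    intro ℓ'
    have h3 : onSheet m ℓ' (rename (Pool.Agent.U207.QC.hI N c) G₀) = pull m (sbl ℓ' (rename (Pool.Agent.U207.QC.hI N c) G₀)) := rfl
    rw [h3, sbl_rename, h]
  rw [hI.tr n N d c m S P ℓ hg _ h1]
  simp only [h2]
  rw [hI.pow n S G d hG hg.toC.hd1]
  exact ⟨fun h => h ℓ (Signs.refl ℓ), fun h _ _ => h⟩

theorem ClA.one (hI : ClA I) {n N d c : ℕ} {m : Fin (N + 1) → Fin (n + 1) → ℕ}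
    {S : Set (MvPolynomial (Fin (n + 1)) ℂ)} {P ℓ : Fin c → MvPolynomial (Fin (N + 1)) ℂ}
    (hg : GoodA n N d c m S P ℓ) : I (N + c) (coverEqs P) 1 ↔ I n S 1 := by
  rw [hI.tr n N d c m S P ℓ hg 1 ⟨0, isHomogeneous_one _ _⟩]
  simp only [onSheet_one]
  exact ⟨fun h => h ℓ (Signs.refl ℓ), fun h _ _ => h⟩

/-- a property of all projective varieties which is transferred from the covers -/
theorem all_ofA {E : ℕ → Set ℕ} (hE : ∀ N, (E N).Infinite)
    {W : ∀ n : ℕ, Set (MvPolynomial (Fin (n + 1)) ℂ) → Prop}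
    (h0 : ∀ S : Set (MvPolynomial (Fin (0 + 1)) ℂ), (∀ p ∈ S, IsForm p) → W 0 S)
    (hc : ∀ (n : ℕ) (S S' : Set (MvPolynomial (Fin (n + 1)) ℂ)),
      (∀ (L : Type) [Field L] [Algebra ℂ L] (x : Fin (n + 1) → L),
        (∀ p ∈ S, aeval x p = 0) ↔ ∀ p ∈ S', aeval x p = 0) → W n S → W n S')
    (hW : ∀ (n N d c : ℕ) (m : Fin (N + 1) → Fin (n + 1) → ℕ)
      (S : Set (MvPolynomial (Fin (n + 1)) ℂ)) (P ℓ : Fin c → MvPolynomial (Fin (N + 1)) ℂ),
      GoodA n N d c m S P ℓ → W (N + c) (coverEqs P) → W n S)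
    (h : ForC E fun N c P => W (N + c) (coverEqs P)) (n : ℕ)
    (S : Set (MvPolynomial (Fin (n + 1)) ℂ)) (hS : ∀ p ∈ S, IsForm p) : W n S := by
  rcases Nat.eq_zero_or_pos n with hn | hn
  · subst hn
    exact h0 S hS
  · obtain ⟨S₀, d, hSame, hd3, hd⟩ := qi_same S hS
    obtain ⟨N, m, hm, hN⟩ := t_num n d hn hd3
    obtain ⟨c, hcE, hcc⟩ := (hE N).exists_gt (cN N)
    obtain ⟨P, ℓ, hsm, hg⟩ := exists_coverA hn hd3 hm hN S₀ hd c hcc.le
    exact hc n S₀ S hSame (hW n N d c m S₀ P ℓ hg (h N c P hcE hg.toC.homP hsm))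

/-- two exceptional sets agree for all projective varieties if and only if they agree for the
covers -/
theorem two_iffA (hI : ClA I) (hJ : ClA J) {E : ℕ → Set ℕ} (hE : ∀ N, (E N).Infinite) :
    (∀ (n : ℕ) (S : Set (MvPolynomial (Fin (n + 1)) ℂ)), (∀ p ∈ S, IsForm p) →
      ∀ G, IsForm G → (I n S G ↔ J n S G)) ↔
    ∀ (N c : ℕ) (P : Fin c → MvPolynomial (Fin (N + 1)) ℂ), c ∈ E N →
      (∀ i, (P i).IsHomogeneous 2) → SmoothCover P →
      ∀ G, IsForm G → (I (N + c) (coverEqs P) G ↔ J (N + c) (coverEqs P) G) := by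
  constructor
  · intro h N c P _ hP _
    exact h (N + c) (coverEqs P) (covEqs_form hP)
  · intro h n S hS
    refine all_ofA hE (W := fun n S => ∀ G, IsForm G → (I n S G ↔ J n S G)) ?_ ?_ ?_ h n S hS
    · intro S hS G hG
      exact iff_of_true (hI.zero S G hS hG) (hJ.zero S G hS hG)
    · intro n S S' hSS h G hG
      exact ⟨fun h1 => hJ.congr n S S' hSS G ((h G hG).1 (hI.congr n S' S
          (fun L _ _ x => (hSS L x).symm) G h1)),
        fun h1 => hI.congr n S S' hSS G ((h G hG).2 (hJ.congr n S' S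
          (fun L _ _ x => (hSS L x).symm) G h1))⟩
    · intro n N d c m S P ℓ hg h G hG
      obtain ⟨G₀, hG₀, hp⟩ := exists_root hg.toC.mon hG
      rw [← hI.base hg hG hG₀ hp, ← hJ.base hg hG hG₀ hp]
      refine h _ ?_
      obtain ⟨e, he⟩ := hG₀
      exact ⟨e, he.rename_isHomogeneous⟩

/-- an implication between the emptiness of two exceptional sets -/
theorem imp_oneA (hI : ClA I) (hJ : ClA J) {E : ℕ → Set ℕ} (hE : ∀ N, (E N).Infinite) :
    (∀ (n : ℕ) (S : Set (MvPolynomial (Fin (n + 1)) ℂ)), (∀ p ∈ S, IsForm p) →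
      I n S 1 → J n S 1) ↔
    ∀ (N c : ℕ) (P : Fin c → MvPolynomial (Fin (N + 1)) ℂ), c ∈ E N →
      (∀ i, (P i).IsHomogeneous 2) → SmoothCover P →
      I (N + c) (coverEqs P) 1 → J (N + c) (coverEqs P) 1 := by
  constructor
  · intro h N c P _ hP _
    exact h (N + c) (coverEqs P) (covEqs_form hP)
  · intro h n S hS
    refine all_ofA hE (W := fun n S => I n S 1 → J n S 1) ?_ ?_ ?_ h n S hS
    · intro S hS _
      exact hJ.zero S 1 hS ⟨0, isHomogeneous_one _ _⟩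
    · intro n S S' hSS h h1
      exact hJ.congr n S S' hSS 1 (h (hI.congr n S' S (fun L _ _ x => (hSS L x).symm) 1 h1))
    · intro n N d c m S P ℓ hg h
      rwa [← hI.one hg, ← hJ.one hg]

/-- an equivalence between the emptiness of two exceptional sets -/
theorem iff_oneA (hI : ClA I) (hJ : ClA J) {E : ℕ → Set ℕ} (hE : ∀ N, (E N).Infinite) :
    (∀ (n : ℕ) (S : Set (MvPolynomial (Fin (n + 1)) ℂ)), (∀ p ∈ S, IsForm p) →
      (I n S 1 ↔ J n S 1)) ↔
    ∀ (N c : ℕ) (P : Fin c → MvPolynomial (Fin (N + 1)) ℂ), c ∈ E N →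
      (∀ i, (P i).IsHomogeneous 2) → SmoothCover P →
      (I (N + c) (coverEqs P) 1 ↔ J (N + c) (coverEqs P) 1) := by
  constructor
  · intro h N c P _ hP _
    exact h (N + c) (coverEqs P) (covEqs_form hP)
  · intro h n S hS
    exact ⟨(imp_oneA hI hJ hE).2 (fun N c P hc hP hsm => (h N c P hc hP hsm).1) n S hS,
      (imp_oneA hJ hI hE).2 (fun N c P hc hP hsm => (h N c P hc hP hsm).2) n S hS⟩

end two

end Pool.Agent.U207.QH
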