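import Pool.Agent.U207.QH.Alg
import Pool.Agent.U207.QC.Tpl
import Pool.Agent.N254.SQ.Qbnd
import Pool.Agent.N254.SQ.Qdeg

/-!
Project QH (helper207), part D: bounded maps, degrees of curves: from the cover to the variety and back.
-/

set_option autoImplicit false

namespace Pool.Agent.U207.QH

open MvPolynomial FF
open Pool.Agent.W603.LV (hgt canDeg Ge)
open Pool.Agent.W603.PV (pht pord pord_le exists_pord)
open Pool.Agent.W602.GT (coords)
open Pool.Agent.N254.SQ (Mon ver IsForm NotIn ValueNotIn Lifts pull aeval_pull aeval_scale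
  OnAlgebraic OnBounded OnBoundedQ OnDegreesQ t_cent t_hform ver_ne_zero ver_smul coords_ver
  algiff_nonneg aeval_zero_of)
open Pool.Agent.U207.QC (hI xI idx_cases pf GoodC coverEqs el el_h el_x el_hI el_ne aeval_sbl Signs
  OnV el_smul sbl sbl_form coords_el notin_iff value_iff)

section sheets

variable {N c : ℕ}

/-- the height of a point on a sheet -/
theorem pord_el {E : Type} [Field E] [Algebra ℂ E] {ℓ : Fin c → MvPolynomial (Fin (N + 1)) ℂ}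
    (hl : ∀ i, (ℓ i).IsHomogeneous 1) {y : Fin (N + 1) → E} (hy : y ≠ 0) (P : Place ℂ E) :
    pord P (el ℓ y) = pord P y := by
  have hy' : ∃ j, y j ≠ 0 := by
    by_contra hcon
    push Not at hcon
    exact hy (funext hcon)
  have hz' : ∃ j, el ℓ y j ≠ 0 := by
    obtain ⟨j, hj⟩ := hy'
    exact ⟨hI N c j, by rwa [el_h]⟩
  apply le_antisymm
  · obtain ⟨j, hj, h⟩ := exists_pord P hy'
    rw [← h]
    have h1 : el ℓ y (hI N c j) ≠ 0 := by rwa [el_h]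
    have h2 := pord_le P h1
    rwa [el_h] at h2
  · obtain ⟨l, hl0, h⟩ := exists_pord P hz'
    rw [← h]
    rcases idx_cases l with ⟨j, rfl⟩ | ⟨i, rfl⟩
    · rw [el_h] at hl0 ⊢
      exact pord_le P hl0
    · rw [el_x] at hl0 ⊢
      have h3 := Pool.Agent.W603.PV.ge_form P y (hl i) (fun α _ => Ge.const _)
      rcases h3 with h4 | h4
      · exact absurd h4 hl0
      · rwa [Nat.cast_one, one_mul] at h4

theorem pht_el {E : Type} [Field E] [Algebra ℂ E] {ℓ : Fin c → MvPolynomial (Fin (N + 1)) ℂ}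
    (hl : ∀ i, (ℓ i).IsHomogeneous 1) {y : Fin (N + 1) → E} (hy : y ≠ 0) :
    pht ℂ (el ℓ y) = pht ℂ y := by
  unfold pht
  congr 1
  exact finsum_congr fun P => pord_el hl hy P

/-- all choices of signs -/
theorem signs_finite (ℓ : Fin c → MvPolynomial (Fin (N + 1)) ℂ) : {ℓ' | Signs ℓ ℓ'}.Finite := by
  have h1 : {ℓ' | Signs ℓ ℓ'} ⊆ Set.pi Set.univ fun i => ({ℓ i, - ℓ i} : Set _) := by
    intro ℓ' h i _
    exact h i
  exact (Set.Finite.pi' fun i => (Set.finite_singleton _).insert _).subset fun ℓ' h i =>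
    h1 h i (Set.mem_univ i)

/-- a common bound for all signs -/
theorem signs_bound (ℓ : Fin c → MvPolynomial (Fin (N + 1)) ℂ)
    (b : (Fin c → MvPolynomial (Fin (N + 1)) ℂ) → ℤ) : ∃ B : ℤ, 0 ≤ B ∧ ∀ ℓ', Signs ℓ ℓ' → b ℓ' ≤ B := by
  obtain ⟨B, hB⟩ := Pool.Agent.N254.SQ.qb_bound (signs_finite ℓ).toFinset b
  exact ⟨max B 0, le_max_right _ _, fun ℓ' h => (hB ℓ' ((signs_finite ℓ).mem_toFinset.2 h)).trans
    (le_max_left _ _)⟩

end sheets

section curves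

variable {n N d c : ℕ} {m : Fin (N + 1) → Fin (n + 1) → ℕ}
  {S : Set (MvPolynomial (Fin (n + 1)) ℂ)} {P ℓ ℓ' : Fin c → MvPolynomial (Fin (N + 1)) ℂ}
  {T : Set (MvPolynomial (Fin (n + 1)) ℂ)} {T' : Set (MvPolynomial (Fin (N + 1)) ℂ)}
  {G : MvPolynomial (Fin (N + c + 1)) ℂ} {E : Type} [Field E] [Algebra ℂ E] [IsFF ℂ E]

theorem onV_of (hg : GoodC n N d c m S P ℓ) {x : Fin (n + 1) → E} (hx : x ≠ 0)
    (hxS : ∀ p ∈ S, aeval x p = 0) : OnV m S (ver m x) :=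
  ⟨x, 1, hx, one_ne_zero, hxS, by rw [one_smul]⟩

theorem pht_ver (hg : GoodC n N d c m S P ℓ) {x : Fin (n + 1) → E} (hx : x ≠ 0) (s : E)
    (hs : s ≠ 0) : pht ℂ (s • ver m x) = d * pht ℂ x := t_hform.ver ℂ E n N d m hg.mon x s hx hs

theorem up_le (hg : GoodC n N d c m S P ℓ) (hl : Signs ℓ ℓ') {x : Fin (n + 1) → E}
    (hx : x ≠ 0) : pht ℂ x ≤ pht ℂ (el ℓ' (ver m x)) := by
  have h1 := pht_ver hg hx 1 one_ne_zero
  rw [one_smul] at h1
  rw [pht_el (hl.hom hg.homL) (ver_ne_zero hg.mon hg.hd1 hx), h1]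
  have h2 := algiff_nonneg hx
  have h3 : (1 : ℤ) ≤ d := by exact_mod_cast hg.hd1
  nlinarith

theorem up_mem (hg : GoodC n N d c m S P ℓ) (hl : Signs ℓ ℓ') {x : Fin (n + 1) → E} (hx : x ≠ 0)
    (hxS : ∀ p ∈ S, aeval x p = 0) : ∀ p ∈ coverEqs P, aeval (el ℓ' (ver m x)) p = 0 := by
  rintro _ ⟨i, rfl⟩
  exact (hg.signs hl).el_mem (onV_of hg hx hxS) i

theorem up_G {x : Fin (n + 1) → E} : aeval (el ℓ' (ver m x)) G = aeval x (pull m (sbl ℓ' G)) := by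
  rw [aeval_pull, aeval_sbl]

theorem up_notin (hg : GoodC n N d c m S P ℓ) (hL : Lifts m d T T')
    {x : Fin (n + 1) → E} (h : NotIn T x) :
    NotIn (rename (hI N c) '' T') (el ℓ' (ver m x)) := by
  rw [notin_iff, el_hI]
  have h1 := t_cent.notIn n N d m hg.hd1 T T' hL E x 1 one_ne_zero
  rw [one_smul] at h1
  exact h1.2 h

theorem up_value (hg : GoodC n N d c m S P ℓ) (hl : Signs ℓ ℓ') (hL : Lifts m d T T')
    {x : Fin (n + 1) → E} (hx : x ≠ 0) (hxS : ∀ p ∈ S, aeval x p = 0) (Pl : Place ℂ E)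
    (h : ValueNotIn T x Pl) : ValueNotIn (rename (hI N c) '' T') (el ℓ' (ver m x)) Pl := by
  rw [value_iff hg.homP ((hg.signs hl).el_mem (onV_of hg hx hxS)), el_hI]
  have h1 := t_cent.value n N d m hg.mon hg.hd1 T T' hL E x 1 hx one_ne_zero Pl
  rw [one_smul] at h1
  exact h1.2 h

/-- the points of the cover over `v(V(S))` -/
structure Over (n N d c : ℕ) (m : Fin (N + 1) → Fin (n + 1) → ℕ)
    (S : Set (MvPolynomial (Fin (n + 1)) ℂ)) (ℓ : Fin c → MvPolynomial (Fin (N + 1)) ℂ)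
    (T : Set (MvPolynomial (Fin (n + 1)) ℂ)) (T' : Set (MvPolynomial (Fin (N + 1)) ℂ))
    (G : MvPolynomial (Fin (N + c + 1)) ℂ) (y : Fin (N + c + 1) → E)
    (ℓ' : Fin c → MvPolynomial (Fin (N + 1)) ℂ) (x : Fin (n + 1) → E) : Prop where
  signs : Signs ℓ ℓ'
  ne : x ≠ 0
  mem : ∀ p ∈ S, aeval x p = 0
  ht : pht ℂ y = d * pht ℂ x
  G0 : aeval y G ≠ 0 → aeval x (pull m (sbl ℓ' G)) ≠ 0
  notin : NotIn (rename (hI N c) '' T') y → NotIn T x
  value : ∀ Pl : Place ℂ E, ValueNotIn (rename (hI N c) '' T') y Pl → ValueNotIn T x Pl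
  gen : coords ℂ x = coords ℂ y

theorem over_of (hg : GoodC n N d c m S P ℓ) (hL : Lifts m d T T') (hG : IsForm G)
    {y : Fin (N + c + 1) → E} (hyP : ∀ p ∈ coverEqs P, aeval y p = 0)
    (h : ∃ (x : Fin (n + 1) → E) (c₀ : E), x ≠ 0 ∧ c₀ ≠ 0 ∧ (∀ p ∈ S, aeval x p = 0) ∧
      y ∘ hI N c = c₀ • ver m x) : ∃ ℓ' x, Over n N d c m S ℓ T T' G y ℓ' x := by
  have hyP' : ∀ i, aeval y (Pool.Agent.U207.QC.coverForm P i) = 0 := fun i => hyP _ ⟨i, rfl⟩
  obtain ⟨ℓ', hl, hyl⟩ := hg.exists_signs hyP' h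
  obtain ⟨x, s, hx, hs, hxS, hyx⟩ := h
  have hv : ver m x ≠ 0 := ver_ne_zero hg.mon hg.hd1 hx
  have hyl' : y = s • el ℓ' (ver m x) := by
    rw [hyl, hyx, el_smul (hl.hom hg.homL)]
  refine ⟨ℓ', x, hl, hx, hxS, ?_, ?_, ?_, ?_, ?_⟩
  · rw [hyl, hyx, pht_el (hl.hom hg.homL) (smul_ne_zero hs hv), pht_ver hg hx s hs]
  · intro h1 h2
    apply h1
    rw [hyl', aeval_zero_of hG hs, up_G]
    exact h2
  · intro h1
    rw [notin_iff, hyx] at h1
    exact (t_cent.notIn n N d m hg.hd1 T T' hL E x s hs).1 h1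
  · intro Pl h1
    rw [value_iff hg.homP hyP', hyx] at h1
    exact (t_cent.value n N d m hg.mon hg.hd1 T T' hL E x s hx hs Pl).1 h1
  · rw [hyl, coords_el (hl.hom hg.homL) (by rw [hyx]; exact smul_ne_zero hs hv), hyx]
    exact (coords_ver hg.mon hg.hd1 x hx s hs).symm

end curves

/-- the transfer, for covers with control of algebraic curves -/
def CovA (P : ∀ n : ℕ, Set (MvPolynomial (Fin (n + 1)) ℂ) →
    Set (MvPolynomial (Fin (n + 1)) ℂ) → MvPolynomial (Fin (n + 1)) ℂ → Prop) : Prop :=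
  ∀ (n N d c : ℕ) (m : Fin (N + 1) → Fin (n + 1) → ℕ)
    (S : Set (MvPolynomial (Fin (n + 1)) ℂ)) (Q ℓ : Fin c → MvPolynomial (Fin (N + 1)) ℂ),
    GoodA n N d c m S Q ℓ → ∀ (T : Set (MvPolynomial (Fin (n + 1)) ℂ))
      (T' : Set (MvPolynomial (Fin (N + 1)) ℂ)), Lifts m d T T' → ∀ G, IsForm G →
        (P (N + c) (coverEqs Q) (rename (hI N c) '' T') G ↔
          ∀ ℓ', Signs ℓ ℓ' → P n S T (pull m (sbl ℓ' G)))

theorem covA_of {J : ∀ n : ℕ, Set (MvPolynomial (Fin (n + 1)) ℂ) →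
    Set (MvPolynomial (Fin (n + 1)) ℂ) → MvPolynomial (Fin (n + 1)) ℂ → Prop}
    (h : Pool.Agent.U207.QC.CovT J) : CovA J :=
  fun n N d c m S Q ℓ hg T T' hT G hG => h n N d c m S Q ℓ hg.toC T T' hT G hG

theorem covA_bounded : CovA (fun _ S T G => OnBoundedQ S T G) := by
  intro n N d c m S P ℓ hga T T' hL G hG
  have hg := hga.toC
  constructor
  · intro hb ℓ' hl E _ _ _ s
    obtain ⟨B, hB⟩ := hb E s
    refine ⟨B, fun x hx hxS hxT hxV hxG => ?_⟩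
    exact (up_le hg hl hx).trans (hB _ (el_ne (ver_ne_zero hg.mon hg.hd1 hx)) (up_mem hg hl hx hxS)
      (up_notin hg hL hxT) (fun Pl hP => up_value hg hl hL hx hxS Pl (hxV Pl hP))
      (by rw [up_G]; exact hxG))
  · intro hb E _ _ _ s
    obtain ⟨A, hA⟩ := hga.alg
    have hb' : ∀ ℓ', ∃ B : ℤ, Signs ℓ ℓ' → ∀ y : Fin (n + 1) → E, y ≠ 0 →
        (∀ p ∈ S, aeval y p = 0) → NotIn T y → (∀ P ∉ s, ValueNotIn T y P) →
        aeval y (pull m (sbl ℓ' G)) ≠ 0 → pht ℂ y ≤ B := by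
      intro ℓ'
      by_cases hl : Signs ℓ ℓ'
      · obtain ⟨B, hB⟩ := hb ℓ' hl E s
        exact ⟨B, fun _ => hB⟩
      · exact ⟨0, fun h => absurd h hl⟩
    choose b hb' using hb'
    obtain ⟨B, hB0, hB⟩ := signs_bound ℓ b
    refine ⟨max (A * max (canDeg ℂ E) 0) (d * B), fun y hy hyP hyT hyV hyG => ?_⟩
    rcases hA E y hy hyP with h1 | h1
    · exact h1.trans (le_max_left _ _)
    · obtain ⟨ℓ', x, ho⟩ := over_of hg hL hG hyP h1
      rw [ho.ht]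
      have h2 := (hb' ℓ' ho.signs x ho.ne ho.mem (ho.notin hyT)
        (fun Pl hP => ho.value Pl (hyV Pl hP)) (ho.G0 hyG)).trans (hB ℓ' ho.signs)
      exact (mul_le_mul_of_nonneg_left h2 (Int.natCast_nonneg d)).trans (le_max_right _ _)

theorem covA_degrees : CovA (fun _ S T G => OnDegreesQ S T G) := by
  intro n N d c m S P ℓ hga T T' hL G hG
  have hg := hga.toC
  constructor
  · rintro ⟨β, hβ⟩ ℓ' hl
    refine ⟨β, fun E _ _ _ s x hx hxc hxS hxT hxV hxG => ?_⟩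
    refine (up_le hg hl hx).trans (hβ E s _ (el_ne (ver_ne_zero hg.mon hg.hd1 hx)) ?_
      (up_mem hg hl hx hxS) (up_notin hg hL hxT)
      (fun Pl hP => up_value hg hl hL hx hxS Pl (hxV Pl hP)) (by rw [up_G]; exact hxG))
    rw [coords_el (hl.hom hg.homL) (ver_ne_zero hg.mon hg.hd1 hx), ← hxc]
    have h1 := coords_ver hg.mon hg.hd1 x hx (1 : E) one_ne_zero
    rwa [one_smul] at h1
  · intro hb
    obtain ⟨A, hA⟩ := hga.alg
    have hb' : ∀ ℓ', ∃ β : ℤ → ℤ, Signs ℓ ℓ' → ∀ (E : Type) [Field E] [Algebra ℂ E] [IsFF ℂ E]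
        (s : Finset (Place ℂ E)) (y : Fin (n + 1) → E), y ≠ 0 → coords ℂ y = ⊤ →
        (∀ p ∈ S, aeval y p = 0) → NotIn T y → (∀ P ∉ s, ValueNotIn T y P) →
        aeval y (pull m (sbl ℓ' G)) ≠ 0 → pht ℂ y ≤ β (canDeg ℂ E + s.card) := by
      intro ℓ'
      by_cases hl : Signs ℓ ℓ'
      · obtain ⟨β, hβ⟩ := hb ℓ' hl
        exact ⟨β, fun _ => hβ⟩
      · exact ⟨fun _ => 0, fun h => absurd h hl⟩
    choose b hb' using hb'
    have h3 : ∀ t : ℤ, ∃ B : ℤ, 0 ≤ B ∧ ∀ ℓ', Signs ℓ ℓ' → b ℓ' t ≤ B := fun t =>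
      signs_bound ℓ fun ℓ' => b ℓ' t
    choose B hB0 hB using h3
    refine ⟨fun t => A * max t 0 + d * B t, fun E _ _ _ s y hy hyc hyP hyT hyV hyG => ?_⟩
    have h0 : (0 : ℤ) ≤ d * B (canDeg ℂ E + s.card) :=
      mul_nonneg (Int.natCast_nonneg d) (hB0 _)
    have h0' : (0 : ℤ) ≤ A * max (canDeg ℂ E + s.card) 0 :=
      mul_nonneg (Int.natCast_nonneg A) (le_max_right _ _)
    have h0'' : (A : ℤ) * max (canDeg ℂ E) 0 ≤ A * max (canDeg ℂ E + s.card) 0 :=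
      mul_le_mul_of_nonneg_left (max_le_max_right 0 (by omega)) (Int.natCast_nonneg A)
    show _ ≤ A * max (canDeg ℂ E + s.card) 0 + d * B (canDeg ℂ E + s.card)
    rcases hA E y hy hyP with h1 | h1
    · omega
    · obtain ⟨ℓ', x, ho⟩ := over_of hg hL hG hyP h1
      have h2 := (hb' ℓ' ho.signs E s x ho.ne (by rw [ho.gen, hyc]) ho.mem (ho.notin hyT)
        (fun Pl hP => ho.value Pl (hyV Pl hP)) (ho.G0 hyG)).trans (hB _ ℓ' ho.signs)
      rw [ho.ht]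
      have h4 := mul_le_mul_of_nonneg_left h2 (Int.natCast_nonneg d)
      omega

/-! ### projective varieties -/

/-- transfer of a type of exceptional sets of projective varieties -/
def TrA (J : ∀ n : ℕ, Set (MvPolynomial (Fin (n + 1)) ℂ) →
    MvPolynomial (Fin (n + 1)) ℂ → Prop) : Prop :=
  ∀ (n N d c : ℕ) (m : Fin (N + 1) → Fin (n + 1) → ℕ)
    (S : Set (MvPolynomial (Fin (n + 1)) ℂ)) (P ℓ : Fin c → MvPolynomial (Fin (N + 1)) ℂ),
    GoodA n N d c m S P ℓ → ∀ G, IsForm G →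
      (J (N + c) (coverEqs P) G ↔ ∀ ℓ', Signs ℓ ℓ' → J n S (pull m (sbl ℓ' G)))

theorem bounded_one {n : ℕ} (S : Set (MvPolynomial (Fin (n + 1)) ℂ))
    (G : MvPolynomial (Fin (n + 1)) ℂ) : OnBoundedQ S {1} G ↔ OnBounded S G := by
  constructor
  · intro h E _ _ _
    obtain ⟨B, hB⟩ := h E ∅
    exact ⟨B, fun y hy hyS hyG => hB y hy hyS (Pool.Agent.U207.QC.notin_one y)
      (fun P _ => Pool.Agent.U207.QC.value_one hy P) hyG⟩
  · intro h E _ _ _ s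
    obtain ⟨B, hB⟩ := h E
    exact ⟨B, fun y hy hyS _ _ hyG => hB y hy hyS hyG⟩

theorem trA_bounded : TrA (fun _ S G => OnBounded S G) := by
  intro n N d c m S P ℓ hga G hG
  have h1 := covA_bounded n N d c m S P ℓ hga {1} {1} (Pool.Agent.U207.QC.lifts_one m) G hG
  rw [Pool.Agent.U207.QC.ren_one] at h1
  simp only [bounded_one] at h1
  exact h1

theorem trA_algebraic : TrA (fun _ S G => OnAlgebraic S G) := by
  intro n N d c m S P ℓ hga G hG
  have hg := hga.toC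
  constructor
  · rintro ⟨α, hα⟩ ℓ' hl
    refine ⟨α, fun E _ _ _ x hx hxS hxG => ?_⟩
    exact (up_le hg hl hx).trans (hα E _ (el_ne (ver_ne_zero hg.mon hg.hd1 hx))
      (up_mem hg hl hx hxS) (by rw [up_G]; exact hxG))
  · intro hb
    obtain ⟨A, hA⟩ := hga.alg
    have hb' : ∀ ℓ', ∃ α : ℕ, Signs ℓ ℓ' → ∀ (E : Type) [Field E] [Algebra ℂ E] [IsFF ℂ E]
        (y : Fin (n + 1) → E), y ≠ 0 → (∀ p ∈ S, aeval y p = 0) →
        aeval y (pull m (sbl ℓ' G)) ≠ 0 → pht ℂ y ≤ α * max (canDeg ℂ E) 0 := by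
      intro ℓ'
      by_cases hl : Signs ℓ ℓ'
      · obtain ⟨α, hα⟩ := hb ℓ' hl
        exact ⟨α, fun _ => hα⟩
      · exact ⟨0, fun h => absurd h hl⟩
    choose b hb' using hb'
    obtain ⟨B, hB0, hB⟩ := signs_bound ℓ fun ℓ' => (b ℓ' : ℤ)
    refine ⟨A + d * B.toNat, fun E _ _ _ y hy hyP hyG => ?_⟩
    have h0 : (0 : ℤ) ≤ max (canDeg ℂ E) 0 := le_max_right _ _
    rcases hA E y hy hyP with h1 | h1
    · refine h1.trans (mul_le_mul_of_nonneg_right ?_ h0)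
      push_cast
      have : (0 : ℤ) ≤ d * (B.toNat : ℤ) := by positivity
      omega
    · obtain ⟨ℓ', x, ho⟩ := over_of hg (Pool.Agent.U207.QC.lifts_one m) hG hyP h1
      have h2 := hb' ℓ' ho.signs E x ho.ne ho.mem (ho.G0 hyG)
      have h3 : (b ℓ' : ℤ) ≤ B.toNat := by
        have := hB ℓ' ho.signs
        omega
      rw [ho.ht]
      have h4 : pht ℂ x ≤ B.toNat * max (canDeg ℂ E) 0 :=
        h2.trans (mul_le_mul_of_nonneg_right h3 h0)
      have h5 := mul_le_mul_of_nonneg_left h4 (Int.natCast_nonneg d)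
      refine h5.trans ?_
      rw [← mul_assoc]
      refine mul_le_mul_of_nonneg_right ?_ h0
      push_cast
      omega

end Pool.Agent.U207.QH
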